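import Mathlib

/-!
# The coefficients of `Φ_{pq}` and of its inverse

`fA p q` is the indicator function of the numerical semigroup generated by `p` and `q`,
`fa p q` its difference function (the coefficients of `Φ_{pq}`), and `chi p q` the `pq`-periodic
sequence of the coefficients of `1 / Φ_{pq}`.
-/

set_option autoImplicit false

namespace Pool.Agent.MP4c27ed

open Finset

/-- Membership in the numerical semigroup generated by `p` and `q`. -/
def inS (p q : ℕ) (x : ℤ) : Prop := ∃ α β : ℕ, x = α * p + β * q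

open Classical in
/-- The indicator function of the semigroup. -/
noncomputable def fA (p q : ℕ) (x : ℤ) : ℤ := if inS p q x then 1 else 0

/-- The difference function of the indicator function. -/
noncomputable def fa (p q : ℕ) (j : ℤ) : ℤ := fA p q j - fA p q (j - 1)

/-- The `pq`-periodic sequence: `1` on `[0,p)`, `-1` on `[q,q+p)`, `0` elsewhere. -/
def chi (p q : ℕ) (u : ℤ) : ℤ :=
  if u % ((p : ℤ) * q) < p then 1
  else if (q : ℤ) ≤ u % ((p : ℤ) * q) ∧ u % ((p : ℤ) * q) < q + p then -1 else 0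

variable {p q : ℕ}

lemma fA_one {x : ℤ} (h : inS p q x) : fA p q x = 1 := by
  unfold fA; rw [if_pos h]

lemma fA_zero {x : ℤ} (h : ¬ inS p q x) : fA p q x = 0 := by
  unfold fA; rw [if_neg h]

lemma inS_of_rep {x u v : ℤ} (hx : x = u * p + v * q) (hu : 0 ≤ u) (hv : 0 ≤ v) :
    inS p q x := by
  refine ⟨u.toNat, v.toNat, ?_⟩
  rw [Int.toNat_of_nonneg hu, Int.toNat_of_nonneg hv]; exact hx

lemma not_inS_of_neg {x : ℤ} (hx : x < 0) : ¬ inS p q x := by
  rintro ⟨α, β, h⟩
  have : (0 : ℤ) ≤ α * p + β * q := by positivity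
  omega

lemma not_inS_of_rep (hpq : Nat.Coprime p q) (hp : 0 < p) {x u v : ℤ}
    (hx : x = u * p + v * q) (hu : u < 0) (hv : v < p) : ¬ inS p q x := by
  rintro ⟨α, β, h⟩
  have h1 : ((α : ℤ) - u) * p = (v - β) * q := by linarith
  have hd : (p : ℤ) ∣ (v - β) * q := ⟨(α : ℤ) - u, by linarith⟩
  have hc : IsCoprime (p : ℤ) (q : ℤ) := Nat.isCoprime_iff_coprime.2 hpq
  have hd2 : (p : ℤ) ∣ (v - β) := hc.dvd_of_dvd_mul_right hd
  obtain ⟨m, hm⟩ := hd2
  have hpos : (0 : ℤ) < ((α : ℤ) - u) * p := by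
    apply mul_pos
    · have : (0 : ℤ) ≤ α := by positivity
      linarith
    · exact_mod_cast hp
  have hq0 : (0 : ℤ) ≤ q := by positivity
  have hvb : 0 < v - β := by
    by_contra hcon
    have : (v - β) * q ≤ 0 := mul_nonpos_of_nonpos_of_nonneg (by linarith) hq0
    linarith
  have hp' : (0 : ℤ) < p := by exact_mod_cast hp
  have hm1 : 0 < m := by
    by_contra hcon
    have : (p : ℤ) * m ≤ 0 := mul_nonpos_of_nonneg_of_nonpos hp'.le (by linarith)
    linarith
  have hb0 : (0 : ℤ) ≤ β := by positivity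
  nlinarith

/-- Every integer has a representation `u p + v q` with `0 ≤ v < p`. -/
lemma exists_rep (hpq : Nat.Coprime p q) (hp : 0 < p) (x : ℤ) :
    ∃ u v : ℤ, x = u * p + v * q ∧ 0 ≤ v ∧ v < p := by
  have hp' : (0 : ℤ) < p := by exact_mod_cast hp
  obtain ⟨a, b, hab⟩ := Nat.isCoprime_iff_coprime.2 hpq
  refine ⟨x * a + (x * b / p) * q, (x * b) % p, ?_, Int.emod_nonneg _ hp'.ne',
    Int.emod_lt_of_pos _ hp'⟩
  have h2 := Int.mul_ediv_add_emod (x * b) p
  have h3 : (x * b) % p = x * b - p * (x * b / p) := by linarith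
  rw [h3]
  linear_combination (-x) * hab

lemma inS_iff_of_rep (hpq : Nat.Coprime p q) (hp : 0 < p) {x u v : ℤ}
    (hx : x = u * p + v * q) (hv0 : 0 ≤ v) (hv : v < p) : inS p q x ↔ 0 ≤ u := by
  constructor
  · intro h
    by_contra hcon
    exact not_inS_of_rep hpq hp hx (by linarith) hv h
  · intro h
    exact inS_of_rep hx h hv0

/-- Symmetry of the semigroup. -/
lemma fA_symm (hpq : Nat.Coprime p q) (hp : 0 < p) (x : ℤ) :
    fA p q x + fA p q ((p : ℤ) * q - p - q - x) = 1 := by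
  obtain ⟨u, v, hx, hv0, hv⟩ := exists_rep hpq hp x
  have h2 : (p : ℤ) * q - p - q - x = (-1 - u) * p + (p - 1 - v) * q := by
    rw [hx]; ring
  by_cases hu : 0 ≤ u
  · rw [fA_one ((inS_iff_of_rep hpq hp hx hv0 hv).2 hu), fA_zero]
    · rfl
    · rw [inS_iff_of_rep hpq hp h2 (by linarith) (by linarith)]; linarith
  · rw [fA_zero, fA_one]
    · rfl
    · rw [inS_iff_of_rep hpq hp h2 (by linarith) (by linarith)]; omega
    · rw [inS_iff_of_rep hpq hp hx hv0 hv]; exact hu

lemma fA_of_large (hpq : Nat.Coprime p q) (hp : 0 < p) {x : ℤ}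
    (hx : (p : ℤ) * q - p - q < x) : fA p q x = 1 := by
  have := fA_symm hpq hp x
  rw [fA_zero (x := (p : ℤ) * q - p - q - x) (not_inS_of_neg (by linarith))] at this
  linarith

lemma fA_neg {x : ℤ} (hx : x < 0) : fA p q x = 0 := fA_zero (not_inS_of_neg hx)

lemma fa_neg {x : ℤ} (hx : x < 0) : fa p q x = 0 := by
  unfold fa; rw [fA_neg hx, fA_neg (by linarith)]; ring

lemma fa_large (hpq : Nat.Coprime p q) (hp : 0 < p) {x : ℤ}
    (hx : (p : ℤ) * q - p - q + 1 < x) : fa p q x = 0 := by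
  unfold fa; rw [fA_of_large hpq hp (by linarith), fA_of_large hpq hp (by linarith)]; ring

lemma fA_zero_arg : fA p q 0 = 1 := fA_one ⟨0, 0, by simp⟩

lemma fa_zero_arg : fa p q 0 = 1 := by
  unfold fa; rw [fA_zero_arg, fA_neg (by norm_num)]; ring

/-- Palindromicity of the coefficients of `Φ_{pq}`. -/
lemma fa_symm (hpq : Nat.Coprime p q) (hp : 0 < p) (j : ℤ) :
    fa p q ((p : ℤ) * q - p - q + 1 - j) = fa p q j := by
  unfold fa
  have h1 := fA_symm hpq hp j
  have h2 := fA_symm hpq hp (j - 1)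
  have e1 : (p : ℤ) * q - p - q + 1 - j = (p : ℤ) * q - p - q - (j - 1) := by ring
  have e2 : (p : ℤ) * q - p - q + 1 - j - 1 = (p : ℤ) * q - p - q - j := by ring
  rw [e2, e1]
  linarith

lemma fA_sub_p (hpq : Nat.Coprime p q) (hp : 0 < p) {x : ℤ}
    (hx : ¬ (q : ℤ) ∣ x) : fA p q (x - p) = fA p q x := by
  obtain ⟨u, v, hxr, hv0, hv⟩ := exists_rep hpq hp x
  have h2 : x - p = (u - 1) * p + v * q := by rw [hxr]; ring
  have hu0 : u ≠ 0 := by
    rintro rfl
    apply hx
    rw [hxr]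
    exact ⟨v, by ring⟩
  by_cases hu : 0 ≤ u
  · rw [fA_one ((inS_iff_of_rep hpq hp hxr hv0 hv).2 hu),
      fA_one ((inS_iff_of_rep hpq hp h2 hv0 hv).2 (by omega))]
  · rw [fA_zero (x := x), fA_zero]
    · rw [inS_iff_of_rep hpq hp h2 hv0 hv]; omega
    · rw [inS_iff_of_rep hpq hp hxr hv0 hv]; exact hu

/-- The recursion `1_S(j) = 1_S(j-p) + [j ∈ {0,q,...,(p-1)q}]`. -/
lemma fA_rec (hpq : Nat.Coprime p q) (hp : 0 < p) (hq : 0 < q) (j : ℕ) :
    fA p q j = fA p q ((j : ℤ) - p) + ∑ β ∈ range p, if j = β * q then 1 else 0 := by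
  by_cases h : ∃ β, β < p ∧ j = β * q
  · obtain ⟨β, hβ, rfl⟩ := h
    rw [Finset.sum_eq_single β]
    · rw [if_pos rfl, fA_one ⟨0, β, by push_cast; ring⟩, fA_zero]
      · ring
      · exact not_inS_of_rep hpq hp (u := -1) (v := β) (by push_cast; ring) (by norm_num)
          (by exact_mod_cast hβ)
    · intro b _ hb
      rw [if_neg]
      intro he
      exact hb (Nat.eq_of_mul_eq_mul_right hq he.symm)
    · intro hb
      exact absurd (Finset.mem_range.2 hβ) hb
  · rw [Finset.sum_eq_zero, add_zero]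
    · obtain ⟨u, v, hxr, hv0, hv⟩ := exists_rep hpq hp (j : ℤ)
      have h2 : (j : ℤ) - p = (u - 1) * p + v * q := by rw [hxr]; ring
      have hu0 : u ≠ 0 := by
        rintro rfl
        apply h
        refine ⟨v.toNat, ?_, ?_⟩
        · omega
        · have : ((v.toNat : ℕ) : ℤ) = v := Int.toNat_of_nonneg hv0
          have h3 : (j : ℤ) = ((v.toNat * q : ℕ) : ℤ) := by
            push_cast; rw [this, hxr]; ring
          exact_mod_cast h3
      by_cases hu : 0 ≤ u
      · rw [fA_one ((inS_iff_of_rep hpq hp hxr hv0 hv).2 hu),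
          fA_one ((inS_iff_of_rep hpq hp h2 hv0 hv).2 (by omega))]
      · rw [fA_zero (x := (j : ℤ)), fA_zero]
        · rw [inS_iff_of_rep hpq hp h2 hv0 hv]; omega
        · rw [inS_iff_of_rep hpq hp hxr hv0 hv]; exact hu
    · intro β hβ
      rw [if_neg]
      intro he
      exact h ⟨β, Finset.mem_range.1 hβ, he⟩

/-! ### Values of `chi` -/

lemma chi_congr {u v : ℤ} (h : u ≡ v [ZMOD ((p : ℤ) * q)]) : chi p q u = chi p q v := by
  unfold chi; rw [h]

lemma chi_of_lt {u : ℤ} (h0 : 0 ≤ u) (h1 : u < (p : ℤ) * q) :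
    chi p q u = if u < p then 1 else if (q : ℤ) ≤ u ∧ u < q + p then -1 else 0 := by
  unfold chi; rw [Int.emod_eq_of_lt h0 h1]

lemma chi_neg_zero (hpq : p < q) {u : ℤ} (h0 : u < 0)
    (h1 : (p : ℤ) + q ≤ u + (p : ℤ) * q) : chi p q u = 0 := by
  have e : chi p q u = chi p q (u + (p : ℤ) * q) := by
    apply chi_congr
    unfold Int.ModEq
    rw [Int.add_emod_right]
  rw [e, chi_of_lt (by linarith [Int.natCast_nonneg p, Int.natCast_nonneg q]) (by linarith)]
  rw [if_neg (by linarith [Int.natCast_nonneg q]), if_neg]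
  rintro ⟨_, h⟩
  linarith

/-- Antisymmetry of `chi`. -/
lemma chi_symm (hp : 0 < p) (hpq : p < q) (hbig : (p : ℤ) + q ≤ (p : ℤ) * q) (u : ℤ) :
    chi p q ((p : ℤ) + q - 1 - u) = - chi p q u := by
  have hN : (0 : ℤ) < (p : ℤ) * q := by
    have : (0 : ℤ) < p := by exact_mod_cast hp
    have : (0 : ℤ) < q := by exact_mod_cast (lt_trans hp hpq)
    positivity
  have hpq' : (p : ℤ) < q := by exact_mod_cast hpq
  have hp' : (0 : ℤ) < p := by exact_mod_cast hp
  set N : ℤ := (p : ℤ) * q with hNdef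
  set v := u % N with hv
  have hv0 : 0 ≤ v := Int.emod_nonneg _ hN.ne'
  have hv1 : v < N := Int.emod_lt_of_pos _ hN
  have e1 : chi p q u = chi p q v := by
    apply chi_congr; unfold Int.ModEq; rw [hv, ← hNdef, Int.emod_emod]
  have e2 : chi p q ((p : ℤ) + q - 1 - u) = chi p q ((p : ℤ) + q - 1 - v) := by
    apply chi_congr
    apply Int.ModEq.sub_left
    exact (Int.mod_modEq u N).symm
  rw [e1, e2]
  by_cases hc : v ≤ (p : ℤ) + q - 1
  · rw [chi_of_lt (u := v) hv0 hv1, chi_of_lt (by linarith) (by linarith)]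
    split_ifs <;> first | rfl | (exfalso; omega)
  · push Not at hc
    have e3 : chi p q ((p : ℤ) + q - 1 - v) = chi p q ((p : ℤ) + q - 1 - v + N) := by
      apply chi_congr
      unfold Int.ModEq
      rw [← hNdef, Int.add_emod_right]
    rw [e3, chi_of_lt (u := v) hv0 hv1, chi_of_lt (by linarith) (by linarith)]
    split_ifs <;> first | rfl | (exfalso; omega)

end Pool.Agent.MP4c27ed
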