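import Pool.Agent.Lib_MP_4c27ed_nt.Coef

/-!
# Evaluation of the truncated convolutions
-/

set_option autoImplicit false
set_option maxHeartbeats 1000000

namespace Pool.Agent.MP4c27ed

open Finset

variable {p q r : ℕ}

/-- The coefficients of the truncation of `Φ_{pqr}` times `Φ_{pq}`. -/
noncomputable def fg (p q r : ℕ) (t : ℕ) (u : ℤ) : ℤ :=
  ∑ i ∈ range (t + 1), fan p q r i * fa p q (u - i)

lemma fc_eq (u J : ℕ) (hJ : u / r + 1 ≤ J) (hr : 0 < r) :
    fc p q r u = ∑ j ∈ range J, chi p q j * fa p q ((u : ℤ) - r * j) := by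
  unfold fc
  rw [← Finset.sum_range_add_sum_Ico _ hJ]
  rw [Finset.sum_eq_zero (s := Finset.Ico (u / r + 1) J), add_zero]
  intro j hj
  rw [Finset.mem_Ico] at hj
  rw [fa_neg, mul_zero]
  have h1 : u < r * (u / r + 1) := Nat.lt_mul_div_succ u hr
  have h2 : r * (u / r + 1) ≤ r * j := Nat.mul_le_mul_left r hj.1
  have h3 : ((u : ℕ) : ℤ) < ((r * j : ℕ) : ℤ) := by exact_mod_cast (lt_of_lt_of_le h1 h2)
  push_cast at h3
  linarith

lemma fD_eq (H : Hyp p q r) {t Y : ℕ} (ht : t ≤ Y) :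
    fD p q r t Y = ∑ j ∈ range (Y / r + 1), chi p q j * fg p q r t ((Y : ℤ) - r * j) := by
  unfold fD fg
  have h1 : ∀ i ∈ range (t + 1), fan p q r i * fcZ p q r ((Y : ℤ) - i)
      = ∑ j ∈ range (Y / r + 1), chi p q j * (fan p q r i * fa p q ((Y : ℤ) - r * j - i)) := by
    intro i hi
    rw [Finset.mem_range] at hi
    have e : (Y : ℤ) - i = ((Y - i : ℕ) : ℤ) := by omega
    rw [e, fcZ_natCast H, fc_eq (Y - i) (Y / r + 1)
      (by have := Nat.div_le_div_right (c := r) (Nat.sub_le Y i); omega) H.r0, Finset.mul_sum]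
    apply Finset.sum_congr rfl
    intro j _
    rw [← e]
    have e2 : (Y : ℤ) - i - r * j = (Y : ℤ) - r * j - i := by ring
    rw [e2]
    ring
  rw [Finset.sum_congr rfl h1, Finset.sum_comm]
  apply Finset.sum_congr rfl
  intro j _
  rw [Finset.mul_sum]

/-- The coefficients of `Φ_{pq}(X^r)`. -/
noncomputable def fh (p q r : ℕ) (u : ℕ) : ℤ := if r ∣ u then fa p q ((u / r : ℕ) : ℤ) else 0

lemma conv_fan (H : Hyp p q r) (u : ℕ) :
    ∑ i ∈ range (u + 1), fan p q r i * fa p q ((u : ℤ) - i) = fh p q r u := by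
  have h1 := congrArg (PowerSeries.coeff u) (phi_series H)
  rw [PowerSeries.coeff_mul, Finset.Nat.sum_antidiagonal_eq_sum_range_succ
    (fun a b => PowerSeries.coeff a ((Polynomial.cyclotomic (p * q * r) ℤ : Polynomial ℤ) :
      PowerSeries ℤ) * PowerSeries.coeff b (serP p q)), PowerSeries.coeff_expand] at h1
  have h2 : fh p q r u = if r ∣ u then PowerSeries.coeff (u / r) (serP p q) else 0 := by
    unfold fh serP
    rw [PowerSeries.coeff_mk]
  rw [h2, ← h1]
  apply Finset.sum_congr rfl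
  intro i hi
  rw [Finset.mem_range] at hi
  rw [Polynomial.coeff_coe]
  unfold fan serP
  rw [PowerSeries.coeff_mk, Nat.cast_sub (by omega)]

lemma fg_eq (H : Hyp p q r) (t u : ℕ) :
    fg p q r t u = fh p q r u -
      ∑ j ∈ range (u - t), fan p q r (u - j) * fa p q j := by
  rw [← conv_fan H u]
  unfold fg
  rcases Nat.lt_or_ge t u with h | h
  · rw [← Finset.sum_range_add_sum_Ico _ (show t + 1 ≤ u + 1 by omega)]
    have h1 : ∑ k ∈ Finset.Ico (t + 1) (u + 1), fan p q r k * fa p q ((u : ℤ) - k)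
        = ∑ j ∈ range (u - t), fan p q r (u - j) * fa p q j := by
      rw [Finset.sum_Ico_eq_sum_range, ← Finset.sum_range_reflect]
      have e0 : u + 1 - (t + 1) = u - t := by omega
      rw [e0]
      apply Finset.sum_congr rfl
      intro j hj
      rw [Finset.mem_range] at hj
      have e1 : t + 1 + (u - t - 1 - j) = u - j := by omega
      rw [e1]
      have e2 : (u : ℤ) - ((u - j : ℕ) : ℤ) = j := by omega
      rw [e2]
    rw [h1]; ring
  · have e0 : u - t = 0 := by omega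
    rw [e0, Finset.sum_range_zero, sub_zero,
      ← Finset.sum_range_add_sum_Ico _ (show u + 1 ≤ t + 1 by omega)]
    rw [Finset.sum_eq_zero (s := Finset.Ico (u + 1) (t + 1)), add_zero]
    intro i hi
    rw [Finset.mem_Ico] at hi
    rw [fa_neg (by omega), mul_zero]

/-- Beyond the degree the product vanishes. -/
lemma fg_large (H : Hyp p q r) {t : ℕ} {u : ℤ} (h : (p : ℤ) * q - p - q + 1 + t < u) :
    fg p q r t u = 0 := by
  unfold fg
  apply Finset.sum_eq_zero
  intro i hi
  rw [Finset.mem_range] at hi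
  rw [fa_large H.cop H.p0 (by omega), mul_zero]

/-- The block formula. -/
lemma fg_block (H : Hyp p q r) {t l ρ : ℕ} (hρ : ρ < r) (ht : t + ρ + 1 = (l + 1) * r) :
    fg p q r t (((l + 1) * r : ℕ) : ℤ) = - ∑ m ∈ range (l + 1),
      fa p q m * fW p q ((((l + 1) * r : ℕ) : ℤ) - r * m) ρ := by
  rw [fg_eq H]
  have hr0 := H.r0
  have h0 : fh p q r ((l + 1) * r) = fa p q ((l + 1 : ℕ) : ℤ) := by
    unfold fh
    rw [if_pos (dvd_mul_left r (l + 1)), Nat.mul_div_cancel _ hr0]
  have e0 : (l + 1) * r - t = ρ + 1 := by omega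
  rw [h0, e0]
  set u : ℕ := (l + 1) * r with hu
  have hlr : l * r + r = u := by rw [hu]; ring
  have hchi0 : chi p q 0 = 1 := by
    rw [chi_of_lt (le_refl _) (by
      have h1 : (0 : ℤ) < p := by exact_mod_cast H.p0
      have h2 : (0 : ℤ) < q := by exact_mod_cast H.q0
      positivity), if_pos (by exact_mod_cast H.p0)]
  have h1 : ∀ j ∈ range (ρ + 1), fan p q r (u - j) * fa p q j
      = ∑ m ∈ range (l + 1), fa p q m * (fa p q j * chi p q ((u : ℤ) - r * m - j))
        + (if j = 0 then fa p q ((l + 1 : ℕ) : ℤ) else 0) := by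
    intro j hj
    rw [Finset.mem_range] at hj
    rw [fan_eq H]
    by_cases hj0 : j = 0
    · subst hj0
      rw [if_pos rfl, Nat.sub_zero]
      have e1 : u / r = l + 1 := by rw [hu, Nat.mul_div_cancel _ hr0]
      rw [e1, Finset.sum_range_succ, Nat.cast_zero, fa_zero_arg, mul_one]
      have e2 : (u : ℤ) - r * ((l + 1 : ℕ) : ℤ) = 0 := by rw [hu]; push_cast; ring
      rw [e2, hchi0, mul_one]
      congr 1
      apply Finset.sum_congr rfl
      intro m _
      rw [sub_zero]; ring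
    · rw [if_neg hj0, add_zero]
      have e1 : (u - j) / r = l := Nat.div_eq_of_lt_le (by omega) (by rw [← hu]; omega)
      rw [e1, Finset.sum_mul]
      apply Finset.sum_congr rfl
      intro m _
      have e2 : ((u - j : ℕ) : ℤ) - r * m = (u : ℤ) - r * m - j := by
        rw [Nat.cast_sub (by omega)]; ring
      rw [e2]; ring
  rw [Finset.sum_congr rfl h1, Finset.sum_add_distrib, Finset.sum_comm,
    Finset.sum_ite_eq_of_mem' _ _ _ (Finset.mem_range.2 (Nat.succ_pos ρ))]
  unfold fW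
  have h2 : ∀ m ∈ range (l + 1), ∑ x ∈ range (ρ + 1),
      fa p q m * (fa p q x * chi p q ((u : ℤ) - r * m - x))
      = fa p q m * ∑ j ∈ range (ρ + 1), fa p q j * chi p q ((u : ℤ) - r * m - j) := by
    intro m _
    rw [Finset.mul_sum]
  rw [Finset.sum_congr rfl h2]
  ring

/-! ### The first coefficients of `Φ_{pq}` -/

lemma fa_one_arg (hp : 2 ≤ p) (hlt : p < q) : fa p q 1 = -1 := by
  unfold fa
  have h : fA p q 1 = 0 := by
    apply fA_zero
    rintro ⟨α, β, h⟩
    have h1 : (0 : ℤ) ≤ (α : ℤ) := by positivity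
    have h2 : (0 : ℤ) ≤ (β : ℤ) := by positivity
    have hp' : (2 : ℤ) ≤ p := by exact_mod_cast hp
    have hq' : (2 : ℤ) ≤ q := by exact_mod_cast (by omega : 2 ≤ q)
    rcases Nat.eq_zero_or_pos α with ha | ha
    · rcases Nat.eq_zero_or_pos β with hb | hb
      · subst ha; subst hb; norm_num at h
      · have h3 : (1 : ℤ) ≤ β := by exact_mod_cast hb
        nlinarith
    · have h3 : (1 : ℤ) ≤ α := by exact_mod_cast ha
      nlinarith
  rw [h, show (1 : ℤ) - 1 = 0 by norm_num, fA_zero_arg]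
  norm_num

lemma fA_mid (hlt : p < q) {m : ℕ} (h1 : 1 ≤ m) (h2 : m < p) : fA p q (m : ℤ) = 0 := by
  apply fA_zero
  rintro ⟨α, β, h⟩
  have h' : m = α * p + β * q := by exact_mod_cast h
  rcases Nat.eq_zero_or_pos α with ha | ha
  · rcases Nat.eq_zero_or_pos β with hb | hb
    · subst ha; subst hb; omega
    · have : q ≤ β * q := Nat.le_mul_of_pos_left q hb
      omega
  · have : p ≤ α * p := Nat.le_mul_of_pos_left p ha
    omega

lemma fa_mid (hlt : p < q) {m : ℕ} (h1 : 2 ≤ m) (h2 : m < p) : fa p q (m : ℤ) = 0 := by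
  unfold fa
  rw [fA_mid hlt (by omega) h2]
  have e : (m : ℤ) - 1 = ((m - 1 : ℕ) : ℤ) := by omega
  rw [e, fA_mid hlt (by omega) (by omega)]
  ring

lemma fa_p (hp : 2 ≤ p) (hlt : p < q) : fa p q (p : ℤ) = 1 := by
  unfold fa
  rw [fA_one ⟨1, 0, by push_cast; ring⟩]
  have e : (p : ℤ) - 1 = ((p - 1 : ℕ) : ℤ) := by omega
  rw [e, fA_mid hlt (by omega) (by omega)]
  ring

/-- Sums against the first `l + 1 ≤ p` coefficients. -/
lemma sum_fa_low (hp : 2 ≤ p) (hlt : p < q) {l : ℕ} (hl : 1 ≤ l) (hlp : l < p) (F : ℕ → ℤ) :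
    ∑ m ∈ range (l + 1), fa p q m * F m = F 0 - F 1 := by
  obtain ⟨l', rfl⟩ : ∃ l', l = l' + 1 := ⟨l - 1, by omega⟩
  rw [Finset.sum_range_succ', Finset.sum_range_succ']
  rw [Finset.sum_eq_zero]
  · push_cast
    rw [fa_zero_arg, zero_add, fa_one_arg hp hlt]
    ring
  · intro m hm
    rw [Finset.mem_range] at hm
    rw [fa_mid hlt (by omega) (by omega), zero_mul]

/-- Sums against the first `p + 1` coefficients. -/
lemma sum_fa_p (hp : 2 ≤ p) (hlt : p < q) (F : ℕ → ℤ) :
    ∑ m ∈ range (p + 1), fa p q m * F m = F 0 - F 1 + F p := by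
  rw [Finset.sum_range_succ, fa_p hp hlt]
  obtain ⟨l, rfl⟩ : ∃ l, p = l + 1 := ⟨p - 1, by omega⟩
  rw [sum_fa_low hp hlt (by omega) (by omega)]
  ring

lemma chi_one_of_lt (H : Hyp p q r) {j : ℕ} (hj : j < p) : chi p q (j : ℤ) = 1 := by
  have h1 : (j : ℤ) < p := by exact_mod_cast hj
  have h2 : (p : ℤ) ≤ (p : ℤ) * q := by
    have := H.bigZ
    have : (0 : ℤ) ≤ q := by positivity
    linarith
  rw [chi_of_lt (by positivity) (by linarith), if_pos h1]

/-- Case `l = 0`: the coefficient at `Y = r`. -/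
lemma fD_case0 (H : Hyp p q r) {t ρ : ℕ} (hρ : ρ < r) (ht : t + ρ + 1 = r) :
    fD p q r t r = 1 - fW p q r ρ := by
  have hr0 := H.r0
  rw [fD_eq H (by omega), Nat.div_self hr0, Finset.sum_range_succ, Finset.sum_range_one]
  have h1 := fg_block H (t := t) (l := 0) hρ (by omega)
  rw [Finset.sum_range_one] at h1
  simp only [zero_add, one_mul, Nat.cast_zero, mul_zero, sub_zero] at h1
  rw [fa_zero_arg, one_mul] at h1
  have h2 : fg p q r t 0 = 1 := by
    have := fg_eq H t 0
    rw [Nat.cast_zero] at this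
    rw [this, Nat.zero_sub, Finset.sum_range_zero, sub_zero]
    unfold fh
    rw [if_pos (dvd_zero r), Nat.zero_div, Nat.cast_zero, fa_zero_arg]
  have c0 := chi_one_of_lt H (j := 0) H.p0
  have c1 := chi_one_of_lt H (j := 1) (by have := H.h3; omega)
  push_cast at c0 c1 ⊢
  rw [c0, c1, mul_zero, sub_zero, mul_one, sub_self, h1, h2]
  ring

/-- Case `1 ≤ l < p`: the coefficient at `Y = p r`. -/
lemma fD_case1 (H : Hyp p q r) {t l ρ : ℕ} (hl : 1 ≤ l) (hlp : l < p) (hρ : ρ < r)
    (hr : (p : ℤ) * q - p - q + 1 ≤ r) (ht : t + ρ + 1 = (l + 1) * r) :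
    fD p q r t ((p * r : ℕ) : ℤ) = -1 - (fW p q (((l + 1) * r : ℕ) : ℤ) ρ
      - fW p q ((l * r : ℕ) : ℤ) ρ) := by
  have hr0 := H.r0
  have hp2 : 2 ≤ p := by have := H.h3; omega
  have hle : (l + 1) * r ≤ p * r := Nat.mul_le_mul_right r (by omega)
  rw [fD_eq H (by omega), Nat.mul_div_cancel _ hr0, Finset.sum_range_succ]
  have hcp : chi p q (p : ℤ) = 0 := by
    have h1 := H.bigZ
    have h2 : (p : ℤ) < q := by exact_mod_cast H.hpq
    have h3 : (0 : ℤ) < p := by exact_mod_cast H.p0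
    rw [chi_of_lt (by positivity) (by linarith), if_neg (by linarith),
      if_neg (by rintro ⟨h, _⟩; linarith)]
  rw [hcp, zero_mul, add_zero]
  -- reflect the sum
  rw [← Finset.sum_range_reflect]
  have h1 : ∀ j ∈ range p, chi p q ((p - 1 - j : ℕ) : ℤ) *
      fg p q r t (((p * r : ℕ) : ℤ) - r * ((p - 1 - j : ℕ) : ℤ))
      = fg p q r t (((j + 1) * r : ℕ) : ℤ) := by
    intro j hj
    rw [Finset.mem_range] at hj
    rw [chi_one_of_lt H (by omega), one_mul]
    congr 1
    have : ((p - 1 - j : ℕ) : ℤ) = (p : ℤ) - 1 - j := by omega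
    rw [this]; push_cast; ring
  rw [Finset.sum_congr rfl h1]
  -- split
  rw [← Finset.sum_range_add_sum_Ico _ (show l + 1 ≤ p by omega), Finset.sum_range_succ]
  have h2 : ∑ i ∈ Finset.Ico (l + 1) p, fg p q r t (((i + 1) * r : ℕ) : ℤ) = 0 := by
    apply Finset.sum_eq_zero
    intro i hi
    rw [Finset.mem_Ico] at hi
    apply fg_large H
    have h3 : (l + 1 + 1) * r ≤ (i + 1) * r := Nat.mul_le_mul_right r (by omega)
    have h4 : (l + 1 + 1) * r = (l + 1) * r + r := by ring
    have h5 : ((t + r + 1 : ℕ) : ℤ) ≤ (((i + 1) * r : ℕ) : ℤ) := by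
      have : t + r + 1 ≤ (i + 1) * r := by omega
      exact_mod_cast this
    push_cast at h5 ⊢
    linarith
  have h3 : ∑ i ∈ range l, fg p q r t (((i + 1) * r : ℕ) : ℤ) = -1 := by
    have h4 : ∀ i ∈ range l, fg p q r t (((i + 1) * r : ℕ) : ℤ)
        = fa p q ((i + 1 : ℕ) : ℤ) * 1 := by
      intro i hi
      rw [Finset.mem_range] at hi
      rw [fg_eq H]
      have h5 : (i + 1) * r ≤ l * r := Nat.mul_le_mul_right r (by omega)
      have h6 : (l + 1) * r = l * r + r := by ring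
      have e0 : (i + 1) * r - t = 0 := by omega
      rw [e0, Finset.sum_range_zero, sub_zero, mul_one]
      unfold fh
      rw [if_pos (dvd_mul_left r (i + 1)), Nat.mul_div_cancel _ hr0]
    rw [Finset.sum_congr rfl h4]
    have h7 := sum_fa_low hp2 H.hpq hl hlp (fun _ => 1)
    rw [Finset.sum_range_succ', Nat.cast_zero, fa_zero_arg] at h7
    linarith
  rw [h2, h3, add_zero, fg_block H hρ ht, sum_fa_low hp2 H.hpq hl hlp]
  have e1 : (((l + 1) * r : ℕ) : ℤ) - r * ((1 : ℕ) : ℤ) = ((l * r : ℕ) : ℤ) := by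
    push_cast; ring
  rw [e1, Nat.cast_zero, mul_zero, sub_zero]
  ring

/-- Case `l = p`: the coefficient at `Y = p r + c`, `0 < c < r`. -/
lemma fD_case2 (H : Hyp p q r) {t ρ c : ℕ} (hc : c < r) (hρ : ρ < c)
    (ht : t + ρ + 1 = p * r + c) :
    fD p q r t ((p * r + c : ℕ) : ℤ) = -(fW p q ((p * r + c : ℕ) : ℤ) ρ
      - fW p q (((p * r + c : ℕ) : ℤ) - r) ρ
      + fW p q (((p * r + c : ℕ) : ℤ) - r * p) ρ) := by
  have hr0 := H.r0
  have hp2 : 2 ≤ p := by have := H.h3; omega
  have hdiv : (p * r + c) / r = p := by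
    rw [Nat.add_comm, Nat.add_mul_div_right _ _ hr0, Nat.div_eq_of_lt hc, zero_add]
  rw [fD_eq H (by omega), hdiv, Finset.sum_range_succ', Nat.cast_zero, mul_zero, sub_zero]
  have c0 := chi_one_of_lt H (j := 0) H.p0
  rw [Nat.cast_zero] at c0
  rw [c0, one_mul, Finset.sum_eq_zero, zero_add]
  · rw [fg_eq H]
    have h0 : fh p q r (p * r + c) = 0 := by
      unfold fh
      rw [if_neg]
      intro h
      have h1 : r ∣ c := (Nat.dvd_add_right (dvd_mul_left r p)).1 h
      have := Nat.le_of_dvd (by omega) h1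
      omega
    have e0 : p * r + c - t = ρ + 1 := by omega
    rw [h0, e0, zero_sub]
    congr 1
    set u : ℕ := p * r + c with hu
    have h1 : ∀ j ∈ range (ρ + 1), fan p q r (u - j) * fa p q j
        = ∑ m ∈ range (p + 1), fa p q m * (fa p q j * chi p q ((u : ℤ) - r * m - j)) := by
      intro j hj
      rw [Finset.mem_range] at hj
      rw [fan_eq H]
      have e1 : (u - j) / r = p := Nat.div_eq_of_lt_le (by omega) (by
        have : (p + 1) * r = p * r + r := by ring
        omega)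
      rw [e1, Finset.sum_mul]
      apply Finset.sum_congr rfl
      intro m _
      have e2 : ((u - j : ℕ) : ℤ) - r * m = (u : ℤ) - r * m - j := by
        rw [Nat.cast_sub (by omega)]; ring
      rw [e2]; ring
    rw [Finset.sum_congr rfl h1, Finset.sum_comm]
    have h2 : ∀ m ∈ range (p + 1), ∑ x ∈ range (ρ + 1),
        fa p q m * (fa p q x * chi p q ((u : ℤ) - r * m - x))
        = fa p q m * fW p q ((u : ℤ) - r * m) ρ := by
      intro m _
      unfold fW
      rw [Finset.mul_sum]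
    rw [Finset.sum_congr rfl h2, sum_fa_p hp2 H.hpq (fun m => fW p q ((u : ℤ) - r * m) ρ)]
    rw [Nat.cast_zero, mul_zero, sub_zero, Nat.cast_one, mul_one]
  · intro j hj
    rw [Finset.mem_range] at hj
    -- `u = p r + c - r (j+1) ≤ t`, `r ∤ u`
    obtain ⟨m, hm⟩ : ∃ m, p = m + (j + 1) := ⟨p - (j + 1), by omega⟩
    have e1 : ((p * r + c : ℕ) : ℤ) - r * ((j + 1 : ℕ) : ℤ) = ((m * r + c : ℕ) : ℤ) := by
      rw [hm]; push_cast; ring
    rw [e1, fg_eq H]
    have h3 : m * r + c ≤ t := by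
      have h4 : (m + 1) * r ≤ p * r := Nat.mul_le_mul_right r (by omega)
      have h5 : (m + 1) * r = m * r + r := by ring
      omega
    have e2 : m * r + c - t = 0 := by omega
    rw [e2, Finset.sum_range_zero, sub_zero]
    unfold fh
    rw [if_neg, mul_zero]
    intro h
    have h1 : r ∣ c := (Nat.dvd_add_right (dvd_mul_left r m)).1 h
    have := Nat.le_of_dvd (by omega) h1
    omega

end Pool.Agent.MP4c27ed
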