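import Pool.Agent.Lib_MP_4c27ed_nt.Window

/-!
# The coefficients of `Φ_{pqrs}` through those of `Φ_{pqr}` and of its inverse
-/

set_option autoImplicit false
set_option maxHeartbeats 1000000

namespace Pool.Agent.MP4c27ed

open Finset

variable {p q r s : ℕ}

/-- Cyclotomic polynomials are palindromic. -/
lemma cyclotomic_reverse_aux {n : ℕ} (hn : 1 < n) :
    (Polynomial.cyclotomic n ℤ).reverse = Polynomial.cyclotomic n ℤ := by
  have hpos : 0 < n := by omega
  have hζ := Complex.isPrimitiveRoot_exp n hpos.ne'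
  set ζ := Complex.exp (2 * Real.pi * Complex.I / n) with hζdef
  have hmin : Polynomial.cyclotomic n ℤ = minpoly ℤ ζ :=
    Polynomial.cyclotomic_eq_minpoly hζ hpos
  have hζ0 : ζ ≠ 0 := hζ.ne_zero hpos.ne'
  set f := Polynomial.cyclotomic n ℤ with hf
  have hroot : Polynomial.aeval ζ⁻¹ f = 0 := by
    have h1 : Polynomial.IsRoot (Polynomial.cyclotomic n ℂ) ζ⁻¹ :=
      hζ.inv.isRoot_cyclotomic hpos
    have h2 : Polynomial.aeval ζ⁻¹ f = Polynomial.eval ζ⁻¹ (Polynomial.cyclotomic n ℂ) := by
      rw [hf, ← Polynomial.map_cyclotomic_int n ℂ, Polynomial.eval_map, Polynomial.aeval_def]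
      rfl
    rw [h2]; exact h1
  have hrev : Polynomial.aeval ζ f.reverse = 0 := by
    have : Invertible ζ⁻¹ := invertibleOfNonzero (inv_ne_zero hζ0)
    have h3 := (Polynomial.eval₂_reverse_eq_zero_iff (algebraMap ℤ ℂ) ζ⁻¹ f).2 hroot
    rw [Polynomial.aeval_def]
    have h4 : ⅟(ζ⁻¹) = ζ := by rw [invOf_eq_inv, inv_inv]
    rw [h4] at h3
    exact h3
  have hint : IsIntegral ℤ ζ := hζ.isIntegral hpos
  have hdvd : f ∣ f.reverse := by
    rw [hmin]
    have := minpoly.isIntegrallyClosed_dvd hint (p := f.reverse) hrev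
    rw [hmin] at this
    exact this
  obtain ⟨g, hg⟩ := hdvd
  have hf0 : f ≠ 0 := Polynomial.cyclotomic_ne_zero n ℤ
  have hr0 : f.reverse ≠ 0 := by
    rw [Ne, Polynomial.reverse_eq_zero]; exact hf0
  have hg0 : g ≠ 0 := by
    rintro rfl
    rw [mul_zero] at hg
    exact hr0 hg
  have hdeg : g.natDegree = 0 := by
    have h1 := Polynomial.reverse_natDegree_le f
    rw [hg, Polynomial.natDegree_mul hf0 hg0] at h1
    omega
  obtain ⟨c, hc⟩ : ∃ c, g = Polynomial.C c := ⟨_, Polynomial.eq_C_of_natDegree_eq_zero hdeg⟩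
  have hmonic : f.Monic := Polynomial.cyclotomic.monic n ℤ
  have hlc : f.reverse.leadingCoeff = f.trailingCoeff := Polynomial.reverse_leadingCoeff f
  have hc0 : f.coeff 0 = 1 := Polynomial.cyclotomic_coeff_zero ℤ hn
  have htc : f.trailingCoeff = 1 := by
    rw [Polynomial.trailingCoeff,
      Polynomial.natTrailingDegree_eq_zero_of_constantCoeff_ne_zero]
    · exact hc0
    · rw [Polynomial.constantCoeff_apply, hc0]; norm_num
  have hc1 : c = 1 := by
    rw [hg, hc, Polynomial.leadingCoeff_mul, hmonic.leadingCoeff, Polynomial.leadingCoeff_C,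
      one_mul, htc] at hlc
    exact hlc
  rw [hg, hc, hc1, Polynomial.C_1, mul_one]

/-- The coefficients of `Φ_{pqr}`. -/
noncomputable def fan (p q r : ℕ) (u : ℕ) : ℤ := (Polynomial.cyclotomic (p * q * r) ℤ).coeff u

/-- The power series `1 / Φ_{pqr}`. -/
noncomputable def serC (p q r : ℕ) (hr : r ≠ 0) : PowerSeries ℤ :=
  PowerSeries.expand r hr (serX p q) * serP p q

/-- Standing hypotheses. -/
structure Hyp (p q r : ℕ) : Prop where
  hp : p.Prime
  hq : q.Prime
  hr : r.Prime
  h3 : 3 ≤ p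
  hpq : p < q
  hqr : q < r

namespace Hyp

lemma p0 (H : Hyp p q r) : 0 < p := H.hp.pos
lemma q0 (H : Hyp p q r) : 0 < q := H.hq.pos
lemma r0 (H : Hyp p q r) : 0 < r := H.hr.pos

lemma cop (H : Hyp p q r) : Nat.Coprime p q := (Nat.coprime_primes H.hp H.hq).2 H.hpq.ne

lemma big3 (H : Hyp p q r) : 3 * q ≤ p * q := Nat.mul_le_mul_right q H.h3

lemma big (H : Hyp p q r) : p + q ≤ p * q := by
  have := H.big3
  have := H.hpq
  omega

lemma bigZ (H : Hyp p q r) : (p : ℤ) + q ≤ (p : ℤ) * q := by exact_mod_cast H.big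

lemma npos (H : Hyp p q r) : 0 < p * q * r := by
  have := H.p0
  have := H.q0
  have := H.r0
  positivity

lemma not_dvd (H : Hyp p q r) : ¬ r ∣ p * q := by
  intro h
  rcases (Nat.Prime.dvd_mul H.hr).1 h with h1 | h1
  · have := Nat.le_of_dvd H.p0 h1
    have := H.hpq
    have := H.hqr
    omega
  · have := Nat.le_of_dvd H.q0 h1
    have := H.hqr
    omega

end Hyp

lemma phi_series (H : Hyp p q r) :
    ((Polynomial.cyclotomic (p * q * r) ℤ : Polynomial ℤ) : PowerSeries ℤ) * serP p q
      = PowerSeries.expand r H.r0.ne' (serP p q) := by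
  have h1 := Polynomial.cyclotomic_expand_eq_cyclotomic_mul H.hr H.not_dvd ℤ
  have h2 := congrArg (fun f : Polynomial ℤ => (f : PowerSeries ℤ)) h1
  simp only [Polynomial.coe_mul] at h2
  rw [coe_expand r H.r0.ne', cyclotomic_eq_serP H.hp H.hq H.hpq] at h2
  exact h2.symm

lemma phi_series' (H : Hyp p q r) :
    ((Polynomial.cyclotomic (p * q * r) ℤ : Polynomial ℤ) : PowerSeries ℤ)
      = PowerSeries.expand r H.r0.ne' (serP p q) * serX p q := by
  rw [← phi_series H, mul_assoc _ (serP p q) (serX p q),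
    serP_mul_serX H.cop H.p0 H.hpq H.big, mul_one]

lemma phi_mul_serC (H : Hyp p q r) :
    ((Polynomial.cyclotomic (p * q * r) ℤ : Polynomial ℤ) : PowerSeries ℤ)
      * serC p q r H.r0.ne' = 1 := by
  unfold serC
  rw [mul_comm (PowerSeries.expand r H.r0.ne' (serX p q)), ← mul_assoc, phi_series H, ← map_mul,
    serP_mul_serX H.cop H.p0 H.hpq H.big, map_one]

/-- Coefficients of `Φ_{pqrs}`. -/
lemma coeff_pqrs (H : Hyp p q r) (hs : s.Prime) (hsn : ¬ s ∣ p * q * r) (k : ℕ) :
    (Polynomial.cyclotomic (p * q * r * s) ℤ).coeff k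
      = ∑ i ∈ range (k / s + 1), fan p q r i *
        PowerSeries.coeff (k - s * i) (serC p q r H.r0.ne') := by
  have h1 := Polynomial.cyclotomic_expand_eq_cyclotomic_mul hs hsn ℤ
  have h2 := congrArg (fun f : Polynomial ℤ => (f : PowerSeries ℤ)) h1
  simp only [Polynomial.coe_mul] at h2
  rw [coe_expand s hs.pos.ne'] at h2
  have h3 : ((Polynomial.cyclotomic (p * q * r * s) ℤ : Polynomial ℤ) : PowerSeries ℤ)
      = PowerSeries.expand s hs.pos.ne'
        ((Polynomial.cyclotomic (p * q * r) ℤ : Polynomial ℤ) : PowerSeries ℤ)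
        * serC p q r H.r0.ne' := by
    rw [h2, mul_assoc _ _ (serC p q r H.r0.ne'), phi_mul_serC H, mul_one]
  rw [← Polynomial.coeff_coe, h3, coeff_expand_mul_eq]
  apply Finset.sum_congr rfl
  intro i _
  rw [Polynomial.coeff_coe]
  rfl

lemma fan_eq (H : Hyp p q r) (u : ℕ) :
    fan p q r u = ∑ m ∈ range (u / r + 1), fa p q m * chi p q ((u : ℤ) - r * m) := by
  unfold fan
  rw [← Polynomial.coeff_coe, phi_series' H, coeff_expand_mul_eq]
  apply Finset.sum_congr rfl
  intro i hi
  rw [Finset.mem_range] at hi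
  unfold serP serX
  rw [PowerSeries.coeff_mk, PowerSeries.coeff_mk, Nat.cast_sub]
  · push_cast; rfl
  · calc r * i ≤ r * (u / r) := Nat.mul_le_mul_left r (by omega)
      _ ≤ u := Nat.mul_div_le u r

/-- The coefficients of `1 / Φ_{pqr}`. -/
noncomputable def fc (p q r : ℕ) (u : ℕ) : ℤ :=
  ∑ j ∈ range (u / r + 1), chi p q j * fa p q ((u : ℤ) - r * j)

lemma coeff_serC (hr : r ≠ 0) (u : ℕ) : PowerSeries.coeff u (serC p q r hr) = fc p q r u := by
  unfold serC fc
  rw [coeff_expand_mul_eq]
  apply Finset.sum_congr rfl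
  intro i hi
  rw [Finset.mem_range] at hi
  unfold serP serX
  rw [PowerSeries.coeff_mk, PowerSeries.coeff_mk, Nat.cast_sub]
  · push_cast; rfl
  · calc r * i ≤ r * (u / r) := Nat.mul_le_mul_left r (by omega)
      _ ≤ u := Nat.mul_div_le u r

/-- `fc` has period `pqr`. -/
lemma fc_periodic (H : Hyp p q r) : Function.Periodic (fc p q r) (p * q * r) := by
  intro u
  have hr0 := H.r0.ne'
  have h1 : (1 - PowerSeries.X ^ (p * q * r)) * serC p q r hr0
      = PowerSeries.expand r hr0 (serT p q) * serP p q := by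
    unfold serC
    rw [← serT_eq H.big, map_mul, map_sub, map_one, map_pow, PowerSeries.expand_X, ← pow_mul,
      mul_comm r (p * q)]
    ring
  have h2 := congrArg (PowerSeries.coeff (u + p * q * r)) h1
  rw [coeff_one_sub_mul, if_pos (by omega), coeff_serC, coeff_serC, Nat.add_sub_cancel,
    coeff_expand_mul_eq] at h2
  have h3 : ∑ i ∈ range ((u + p * q * r) / r + 1), PowerSeries.coeff i (serT p q) *
      PowerSeries.coeff (u + p * q * r - r * i) (serP p q) = 0 := by
    apply Finset.sum_eq_zero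
    intro i _
    by_cases hi : i < q + p
    · have h4 : PowerSeries.coeff (u + p * q * r - r * i) (serP p q) = 0 := by
        unfold serP
        rw [PowerSeries.coeff_mk]
        apply fa_large H.cop H.p0
        have hbig := H.big
        have hr3 : 3 ≤ r := by have := H.h3; have := H.hpq; have := H.hqr; omega
        -- `p q r - r i ≥ r (p q - p - q + 1)`
        have h5 : r * i ≤ r * (q + p - 1) := Nat.mul_le_mul_left r (by omega)
        obtain ⟨c, hc⟩ : ∃ c, p * q = c + (q + p) := ⟨p * q - (q + p), by omega⟩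
        have h6 : p * q * r = r * (c + 1) + r * (q + p - 1) := by
          rw [hc]
          have : 1 ≤ q + p := by have := H.p0; omega
          obtain ⟨e, he⟩ : ∃ e, q + p = e + 1 := ⟨q + p - 1, by omega⟩
          rw [he, Nat.add_sub_cancel]; ring
        have h7 : 3 * (c + 1) ≤ r * (c + 1) := Nat.mul_le_mul_right _ hr3
        have hcz : (p : ℤ) * q = c + (q + p) := by exact_mod_cast hc
        rw [hcz]
        have h8 : c + 1 < u + p * q * r - r * i := by omega
        have h9 : ((c + 1 : ℕ) : ℤ) < ((u + p * q * r - r * i : ℕ) : ℤ) := by exact_mod_cast h8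
        push_cast at h9 ⊢
        linarith
      rw [h4, mul_zero]
    · have h4 : PowerSeries.coeff i (serT p q) = 0 := by
        unfold serT
        rw [PowerSeries.coeff_mk, if_neg (by omega), if_neg (by omega)]
      rw [h4, zero_mul]
  rw [h3] at h2
  linarith

/-- The periodic extension of `fc` to the integers. -/
noncomputable def fcZ (p q r : ℕ) (y : ℤ) : ℤ := fc p q r (y % ((p * q * r : ℕ) : ℤ)).toNat

lemma fcZ_natCast (H : Hyp p q r) (u : ℕ) : fcZ p q r (u : ℤ) = fc p q r u := by
  unfold fcZ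
  rw [← Int.natCast_mod, Int.toNat_natCast]
  exact (fc_periodic H).map_mod_nat u

lemma fcZ_congr {x y : ℤ} (h : x ≡ y [ZMOD ((p * q * r : ℕ) : ℤ)]) :
    fcZ p q r x = fcZ p q r y := by
  unfold fcZ; rw [h]

/-- The truncated convolution `∑_{i ≤ t} a_n(i) c_n(Y - i)`. -/
noncomputable def fD (p q r : ℕ) (t : ℕ) (Y : ℤ) : ℤ :=
  ∑ i ∈ range (t + 1), fan p q r i * fcZ p q r (Y - i)

lemma fan_zero_of_large {i : ℕ} (h : (Polynomial.cyclotomic (p * q * r) ℤ).natDegree < i) :
    fan p q r i = 0 := Polynomial.coeff_eq_zero_of_natDegree_lt h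

lemma fan_symm (H : Hyp p q r) {i : ℕ}
    (h : i ≤ (Polynomial.cyclotomic (p * q * r) ℤ).natDegree) :
    fan p q r ((Polynomial.cyclotomic (p * q * r) ℤ).natDegree - i) = fan p q r i := by
  have hn : 1 < p * q * r := by
    have h1 := H.h3
    have h2 := H.q0
    have h3 := H.r0
    have h4 : p * 1 * 1 ≤ p * q * r := Nat.mul_le_mul (Nat.mul_le_mul_left p h2) h3
    omega
  have h1 := cyclotomic_reverse_aux hn
  have h2 := congrArg (fun f : Polynomial ℤ => f.coeff i) h1
  simp only [Polynomial.coeff_reverse] at h2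
  rw [Polynomial.revAt_le h] at h2
  exact h2

/-- The complete convolution vanishes. -/
lemma full_conv (H : Hyp p q r) (Y : ℤ) :
    ∑ i ∈ range ((Polynomial.cyclotomic (p * q * r) ℤ).natDegree + 1),
      fan p q r i * fcZ p q r (Y - i) = 0 := by
  have hn := H.npos
  set N := (Polynomial.cyclotomic (p * q * r) ℤ).natDegree with hN
  obtain ⟨u, hu1, hu2⟩ : ∃ u : ℕ, N + 1 ≤ u ∧
      (u : ℤ) ≡ Y [ZMOD ((p * q * r : ℕ) : ℤ)] := by
    generalize p * q * r = n at hn
    have hnz : (0 : ℤ) < (n : ℤ) := by exact_mod_cast hn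
    refine ⟨(Y % n).toNat + n * (N + 1), ?_, ?_⟩
    · have : N + 1 ≤ n * (N + 1) := Nat.le_mul_of_pos_left _ hn
      omega
    · push_cast
      rw [Int.toNat_of_nonneg (Int.emod_nonneg _ hnz.ne')]
      unfold Int.ModEq
      rw [Int.add_mul_emod_self_left, Int.emod_emod]
  have h1 := congrArg (PowerSeries.coeff u) (phi_mul_serC H)
  rw [PowerSeries.coeff_mul, Finset.Nat.sum_antidiagonal_eq_sum_range_succ
    (fun a b => PowerSeries.coeff a ((Polynomial.cyclotomic (p * q * r) ℤ : Polynomial ℤ) :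
      PowerSeries ℤ) * PowerSeries.coeff b (serC p q r H.r0.ne')), PowerSeries.coeff_one,
    if_neg (by omega)] at h1
  rw [← h1, ← Finset.sum_range_add_sum_Ico _ (show N + 1 ≤ u + 1 by omega)]
  have hz : ∑ k ∈ Finset.Ico (N + 1) (u + 1), PowerSeries.coeff k
      ((Polynomial.cyclotomic (p * q * r) ℤ : Polynomial ℤ) : PowerSeries ℤ) *
      PowerSeries.coeff (u - k) (serC p q r H.r0.ne') = 0 := by
    apply Finset.sum_eq_zero
    intro k hk
    rw [Finset.mem_Ico] at hk
    rw [Polynomial.coeff_coe, Polynomial.coeff_eq_zero_of_natDegree_lt (by omega), zero_mul]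
  rw [hz, add_zero]
  apply Finset.sum_congr rfl
  intro i hi
  rw [Finset.mem_range] at hi
  rw [Polynomial.coeff_coe, coeff_serC, ← fcZ_natCast H, Nat.cast_sub (by omega)]
  unfold fan
  congr 1
  apply fcZ_congr
  exact (hu2.symm).sub_right _

/-- Flatness bounds all truncated convolutions when `s ≡ ± 1` modulo `pqr`. -/
lemma flat_D (H : Hyp p q r) (hs : s.Prime) (hsn : ¬ s ∣ p * q * r) (hn : p * q * r ≤ s)
    (hflat : ∀ k : ℕ, |(Polynomial.cyclotomic (p * q * r * s) ℤ).coeff k| ≤ 1)
    (hcong : (s : ℤ) ≡ 1 [ZMOD ((p * q * r : ℕ) : ℤ)] ∨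
      (s : ℤ) ≡ -1 [ZMOD ((p * q * r : ℕ) : ℤ)])
    (t Y : ℕ) (ht : t < Y) (hY : Y < p * q * r) : |fD p q r t Y| ≤ 1 := by
  have hs0 := hs.pos
  rcases hcong with hc | hc
  · -- `s ≡ 1`
    have h1 := hflat (t * s + (Y - t))
    have hk : (t * s + (Y - t)) / s = t := by
      rw [Nat.add_comm, Nat.add_mul_div_right _ _ hs0, Nat.div_eq_of_lt (by omega), zero_add]
    rw [coeff_pqrs H hs hsn, hk] at h1
    have h2 : ∑ i ∈ range (t + 1), fan p q r i *
        PowerSeries.coeff (t * s + (Y - t) - s * i) (serC p q r H.r0.ne') = fD p q r t Y := by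
      unfold fD
      apply Finset.sum_congr rfl
      intro i hi
      rw [Finset.mem_range] at hi
      rw [coeff_serC, ← fcZ_natCast H]
      congr 1
      apply fcZ_congr
      have hle : s * i ≤ t * s := by
        rw [mul_comm t s]; exact Nat.mul_le_mul_left s (by omega)
      rw [Nat.cast_sub (by omega), Nat.cast_add, Nat.cast_sub ht.le]
      push_cast
      have h3 : (t : ℤ) * s + (Y - t) - s * i = (t - i) * s + (Y - t) := by ring
      have h4 : (Y : ℤ) - i = (t - i) * 1 + (Y - t) := by ring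
      rw [h3, h4]
      have := (hc.mul_left ((t : ℤ) - i)).add_right ((Y : ℤ) - t)
      push_cast at this
      exact this
    rw [h2] at h1
    exact h1
  · -- `s ≡ -1`
    set N := (Polynomial.cyclotomic (p * q * r) ℤ).natDegree with hN
    have hfull := full_conv H (Y : ℤ)
    rw [← hN] at hfull
    rcases Nat.lt_or_ge t N with htN | htN
    · -- main case
      obtain ⟨t', ht'⟩ : ∃ t', t + 1 + t' = N := ⟨N - (t + 1), by omega⟩
      have h1 := hflat (t' * s + (Y - 1 - t))
      have hk : (t' * s + (Y - 1 - t)) / s = t' := by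
        rw [Nat.add_comm, Nat.add_mul_div_right _ _ hs0, Nat.div_eq_of_lt (by omega), zero_add]
      rw [coeff_pqrs H hs hsn, hk] at h1
      have h2 : ∑ i ∈ range (t' + 1), fan p q r i *
          PowerSeries.coeff (t' * s + (Y - 1 - t) - s * i) (serC p q r H.r0.ne')
          = - fD p q r t Y := by
        have hsplit : N + 1 = (t + 1) + (t' + 1) := by omega
        rw [hsplit, Finset.sum_range_add] at hfull
        have h3 : ∑ i ∈ range (t' + 1), fan p q r i *
            PowerSeries.coeff (t' * s + (Y - 1 - t) - s * i) (serC p q r H.r0.ne')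
            = ∑ x ∈ range (t' + 1), fan p q r (t + 1 + x) *
              fcZ p q r ((Y : ℤ) - ((t + 1 + x : ℕ) : ℤ)) := by
          rw [← Finset.sum_range_reflect]
          apply Finset.sum_congr rfl
          intro x hx
          rw [Finset.mem_range] at hx
          have e1 : t' + 1 - 1 - x = N - (t + 1 + x) := by omega
          rw [e1, fan_symm H (by omega), coeff_serC, ← fcZ_natCast H]
          congr 1
          apply fcZ_congr
          have hle : s * (N - (t + 1 + x)) ≤ t' * s := by
            rw [mul_comm t' s]; exact Nat.mul_le_mul_left s (by omega)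
          have e2 : ((Y - 1 - t : ℕ) : ℤ) = (Y : ℤ) - 1 - t := by omega
          have e3 : (N : ℤ) = (t : ℤ) + 1 + t' := by exact_mod_cast ht'.symm
          have e5 : ((N - (t + 1 + x) : ℕ) : ℤ) = (t' : ℤ) - x := by omega
          have e4 : ((t' * s + (Y - 1 - t) - s * (N - (t + 1 + x)) : ℕ) : ℤ)
              = (x : ℤ) * s + (Y - 1 - t) := by
            rw [Nat.cast_sub (by omega), Nat.cast_add, e2, Nat.cast_mul, Nat.cast_mul, e5]
            ring
          have h6 : (Y : ℤ) - ((t + 1 + x : ℕ) : ℤ) = x * (-1) + (Y - 1 - t) := by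
            push_cast; ring
          rw [e4, h6]
          exact (hc.mul_left (x : ℤ)).add_right ((Y : ℤ) - 1 - t)
        rw [h3]
        unfold fD
        linarith
      rw [h2, abs_neg] at h1
      exact h1
    · -- `t ≥ N`
      have h1 : fD p q r t Y = 0 := by
        unfold fD
        rw [← Finset.sum_range_add_sum_Ico _ (show N + 1 ≤ t + 1 by omega), hfull, zero_add]
        apply Finset.sum_eq_zero
        intro i hi
        rw [Finset.mem_Ico] at hi
        rw [fan_zero_of_large (by omega), zero_mul]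
      rw [h1]; norm_num

end Pool.Agent.MP4c27ed
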