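import Pool.Agent.Lib_MP_4c27ed_nt.Window

/-!
# Explicit values of the partial sums `W(κ, ρ)`
-/

set_option autoImplicit false

namespace Pool.Agent.MP4c27ed

open Finset

variable {p q : ℕ}

lemma frob (hpq : Nat.Coprime p q) (hp : 0 < p) {x : ℤ} (h : fA p q x = 0) :
    x ≤ (p : ℤ) * q - p - q := by
  by_contra hcon
  push Not at hcon
  rw [fA_of_large hpq hp hcon] at h
  norm_num at h

lemma fA_cases (x : ℤ) : fA p q x = 0 ∨ fA p q x = 1 := by
  by_cases h : inS p q x
  · right; exact fA_one h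
  · left; exact fA_zero h

lemma fA_mul_left (m : ℕ) : fA p q ((p : ℤ) * m) = 1 := fA_one ⟨m, 0, by push_cast; ring⟩

/-- If `q < κ < pq - q` and `q ∤ κ`, some partial sum is `-1`. -/
lemma comb_b0 (hpq : Nat.Coprime p q) (hp : 3 ≤ p) (hlt : p < q) {κ : ℕ}
    (h1 : q < κ) (h2 : (κ : ℤ) < (p : ℤ) * q - q) (hq : ¬ q ∣ κ) :
    ∃ ρ : ℕ, ρ < κ ∧ fW p q κ ρ = -1 := by
  have hp0 : 0 < p := by omega
  have hq' : ¬ (q : ℤ) ∣ (κ : ℤ) := by
    intro h; exact hq (by exact_mod_cast h)
  have hqq : ¬ (q : ℤ) ∣ (κ : ℤ) - q := by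
    intro h
    apply hq'
    have := dvd_add h (dvd_refl (q : ℤ))
    simpa using this
  have hp3 : (3 : ℤ) ≤ p := by exact_mod_cast hp
  have hlt' : (p : ℤ) < q := by exact_mod_cast hlt
  have hpq3 : (3 : ℤ) * q ≤ (p : ℤ) * q := by nlinarith
  have h1' : (q : ℤ) < κ := by exact_mod_cast h1
  have hsub := fA_sub_p hpq hp0 hqq
  rcases fA_cases (p := p) (q := q) ((κ : ℤ) - q) with hA | hA
  · -- `κ - q ∉ S`
    rw [hA] at hsub
    set d : ℕ := (κ - q) / p with hd
    have hd1 : p * d ≤ κ - q := Nat.mul_div_le _ _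
    have hd2 : κ - q < p * d + p := by
      have := Nat.lt_mul_div_succ (κ - q) hp0
      rw [mul_add, mul_one] at this
      exact this
    refine ⟨p * d, by omega, ?_⟩
    have hc1 : ((p * d : ℕ) : ℤ) ≤ κ - q := by omega
    have hc2 : (κ : ℤ) - q < ((p * d : ℕ) : ℤ) + p := by omega
    rw [fW_eq_fR hp0 hlt (by positivity) (by linarith) _ (by linarith)]
    unfold fR
    rw [if_pos (c := ((p * d : ℕ) : ℤ) ≤ (κ : ℤ) - p) (by linarith),
      if_neg (c := ((p * d : ℕ) : ℤ) ≤ (κ : ℤ) - q - p) (by linarith), min_eq_left hc1, hsub]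
    push_cast
    rw [fA_mul_left]
    norm_num
  · rw [hA] at hsub
    -- `κ ∈ S`
    have hAk : fA p q κ = 1 := by
      have : inS p q ((κ : ℤ) - q) := by
        by_contra hcon
        rw [fA_zero hcon] at hA
        norm_num at hA
      obtain ⟨a, b, hab⟩ := this
      exact fA_one ⟨a, b + 1, by push_cast; linarith⟩
    have hAkp : fA p q ((κ : ℤ) - p) = 1 := by rw [fA_sub_p hpq hp0 hq', hAk]
    set e : ℕ := (κ + q) % p with he
    have he1 : e < p := Nat.mod_lt _ hp0
    set d : ℕ := (κ + q) / p with hd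
    have hde : p * d + e = κ + q := Nat.div_add_mod _ _
    have hA0 : fA p q ((κ : ℤ) - e) = 0 := by
      apply fA_zero
      have hde' : (p : ℤ) * d + e = κ + q := by exact_mod_cast hde
      have hrep : (κ : ℤ) - e = ((d : ℤ) - q) * p + ((p : ℤ) - 1) * q := by linarith
      refine not_inS_of_rep hpq hp0 hrep ?_ (by linarith)
      by_contra hcon
      push Not at hcon
      have : (0 : ℤ) ≤ ((d : ℤ) - q) * p := mul_nonneg hcon (by positivity)
      have he0 : (0 : ℤ) ≤ e := by positivity
      linarith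
    have hene : e ≠ 0 := by
      intro h0
      rw [h0] at hA0
      simp only [Nat.cast_zero, sub_zero] at hA0
      rw [hAk] at hA0
      norm_num at hA0
    have hfr := frob hpq hp0 hA0
    have hcast : ((κ - e : ℕ) : ℤ) = κ - e := by rw [Nat.cast_sub (by omega)]
    refine ⟨κ - e, by omega, ?_⟩
    rw [fW_eq_fR hp0 hlt (by positivity) (by linarith) _ (by rw [hcast]; exact hfr), hcast]
    unfold fR
    have he0 : (0 : ℤ) ≤ e := by positivity
    have he1' : (e : ℤ) < p := by exact_mod_cast he1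
    rw [if_neg (c := (κ : ℤ) - e ≤ (κ : ℤ) - p) (by linarith), min_eq_left (by linarith), hA0,
      hAkp, if_neg (c := (κ : ℤ) - e ≤ (κ : ℤ) - q - p) (by linarith),
      min_eq_right (by linarith), hsub, hA]
    norm_num

lemma fA_small {x : ℤ} (hx : x < q)
    (hd : ¬ (p : ℤ) ∣ x) : fA p q x = 0 := by
  apply fA_zero
  rintro ⟨α, β, h⟩
  rcases Nat.eq_zero_or_pos β with hb | hb
  · subst hb
    exact hd ⟨α, by rw [h]; push_cast; ring⟩
  · have h1 : (1 : ℤ) ≤ β := by exact_mod_cast hb
    have h2 : (q : ℤ) ≤ β * q := by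
      have : (0 : ℤ) ≤ q := by positivity
      nlinarith
    have h3 : (0 : ℤ) ≤ α * p := by positivity
    linarith

lemma not_dvd_of_between {p : ℕ} {x k : ℤ} (h1 : k * p < x) (h2 : x < (k + 1) * p) :
    ¬ (p : ℤ) ∣ x := by
  rintro ⟨c, rfl⟩
  have hp : (0 : ℤ) ≤ p := by positivity
  have h3 : k < c := by
    by_contra hcon
    push Not at hcon
    nlinarith
  have h4 : c < k + 1 := by
    by_contra hcon
    push Not at hcon
    nlinarith
  omega

/-- The failure for `r ≡ ± w` modulo `pq` with `2 ≤ w < q`. -/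
lemma comb_bl (hpq : Nat.Coprime p q) (hp : 3 ≤ p) (hpp : p.Prime) (hqp : q.Prime)
    (hlt : p < q)
    {w : ℕ} (hw : 2 ≤ w) (hwq : w < q) (hpw : ¬ p ∣ w) :
    ∃ l ρ : ℕ, 1 ≤ l ∧ l + 1 ≤ p ∧ (ρ : ℤ) ≤ (p : ℤ) * q - p - q ∧
      fW p q (((l + 1) * w : ℕ) : ℤ) ρ - fW p q ((l * w : ℕ) : ℤ) ρ = 1 := by
  have hp0 : 0 < p := by omega
  have hp3 : (3 : ℤ) ≤ p := by exact_mod_cast hp
  have hlt' : (p : ℤ) < q := by exact_mod_cast hlt
  have hpq3 : (3 : ℤ) * q ≤ (p : ℤ) * q := by nlinarith
  have hwp : w ≠ p := by rintro rfl; exact hpw (dvd_refl _)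
  have hfp : fA p q p = 1 := fA_one ⟨1, 0, by push_cast; ring⟩
  rcases lt_or_gt_of_ne hwp with hc | hc
  · -- `w < p`
    set l : ℕ := (p - 1) / w with hl
    have hl1 : w * l ≤ p - 1 := Nat.mul_div_le _ _
    have hl2 : p - 1 < w * l + w := by
      have := Nat.lt_mul_div_succ (p - 1) (show 0 < w by omega)
      rw [mul_add, mul_one] at this
      exact this
    have hl0 : 1 ≤ l := by
      rcases Nat.eq_zero_or_pos l with h | h
      · rw [h] at hl2; omega
      · exact h
    have hlp : l ≤ w * l := Nat.le_mul_of_pos_left l (by omega)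
    have e1 : ((l + 1) * w) = w * l + w := by ring
    have e0 : l * w = w * l := by ring
    refine ⟨l, p, hl0, by omega, by linarith, ?_⟩
    rw [e1, e0]
    have hne : w * l + w ≠ p := by
      intro h
      have : w ∣ p := ⟨l + 1, by rw [← h]; ring⟩
      rcases (Nat.dvd_prime hpp).1 this with h1 | h1
      · omega
      · exact absurd h1 hwp
    have hneq : w * l + w ≠ q := by
      intro h
      have : w ∣ q := ⟨l + 1, by rw [← h]; ring⟩
      rcases (Nat.dvd_prime hqp).1 this with h1 | h1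
      · omega
      · omega
    generalize hm : w * l = m at *
    have hm0 : 1 ≤ m := by
      have : 0 < w * l := Nat.mul_pos (by omega) hl0
      omega
    have hA1 : fA p q (((m + w : ℕ) : ℤ) - p) = 0 := by
      apply fA_small (by push_cast; omega)
      apply not_dvd_of_between (k := 0) <;> push_cast <;> omega
    have hA2 : fA p q (((m + w : ℕ) : ℤ) - q) = 0 := by
      rcases lt_or_gt_of_ne hneq with h | h
      · apply fA_neg; push_cast; omega
      · apply fA_small (by push_cast; omega)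
        apply not_dvd_of_between (k := 0) <;> push_cast <;> omega
    have hA3 : fA p q (((m + w : ℕ) : ℤ) - q - p) = 0 := by
      apply fA_neg; push_cast; omega
    have hA4 : fA p q ((m : ℕ) : ℤ) = 0 := by
      apply fA_small (by omega)
      apply not_dvd_of_between (k := 0) <;> push_cast <;> omega
    rw [fW_eq_fR hp0 hlt (by positivity) (by push_cast; omega) _ (by linarith),
      fW_eq_fR hp0 hlt (by positivity) (by omega) _ (by linarith)]
    unfold fR
    rw [if_neg (c := ((p : ℕ) : ℤ) ≤ ((m + w : ℕ) : ℤ) - p) (by push_cast; omega),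
      min_eq_left (a := ((p : ℕ) : ℤ)) (b := ((m + w : ℕ) : ℤ)) (by push_cast; omega),
      if_neg (c := ((p : ℕ) : ℤ) ≤ ((m + w : ℕ) : ℤ) - q - p) (by push_cast; omega),
      min_eq_right (a := ((p : ℕ) : ℤ)) (b := ((m + w : ℕ) : ℤ) - q) (by push_cast; omega),
      if_neg (c := ((p : ℕ) : ℤ) ≤ ((m : ℕ) : ℤ) - p) (by omega),
      min_eq_right (a := ((p : ℕ) : ℤ)) (b := ((m : ℕ) : ℤ)) (by omega),
      if_neg (c := ((p : ℕ) : ℤ) ≤ ((m : ℕ) : ℤ) - q - p) (by omega),
      min_eq_right (a := ((p : ℕ) : ℤ)) (b := ((m : ℕ) : ℤ) - q) (by omega),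
      hA1, hA2, hA3, hA4, hfp, fA_neg (x := ((m : ℕ) : ℤ) - p) (by omega),
      fA_neg (x := ((m : ℕ) : ℤ) - q) (by omega),
      fA_neg (x := ((m : ℕ) : ℤ) - q - p) (by omega)]
    norm_num
  · -- `p < w < q`, `l = 1`
    have hw' : (p : ℤ) < w := by exact_mod_cast hc
    have hwq' : (w : ℤ) < q := by exact_mod_cast hwq
    have hpw' : ¬ (p : ℤ) ∣ (w : ℤ) := fun h => hpw (by exact_mod_cast h)
    have hp2 : ¬ p ∣ 2 * w := by
      intro h
      rcases (Nat.Prime.dvd_mul hpp).1 h with h1 | h1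
      · have := Nat.le_of_dvd (by norm_num) h1; omega
      · exact hpw h1
    have hq2 : ¬ q ∣ 2 * w := by
      intro h
      rcases (Nat.Prime.dvd_mul hqp).1 h with h1 | h1
      · have := Nat.le_of_dvd (by norm_num) h1; omega
      · have := Nat.le_of_dvd (by omega) h1; omega
    have hq2' : ¬ (q : ℤ) ∣ 2 * (w : ℤ) := fun h => hq2 (by exact_mod_cast h)
    have hq3' : ¬ (q : ℤ) ∣ 2 * (w : ℤ) - q := fun h => hq2' (by
      have := dvd_add h (dvd_refl (q : ℤ)); simpa using this)
    have hAw : fA p q (w : ℤ) = 0 := fA_small hwq' hpw'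
    have hAwp : fA p q ((w : ℤ) - p) = 0 := by
      rw [fA_sub_p hpq hp0 (fun h => by
        have := Int.le_of_dvd (by linarith) h; linarith)]
      exact hAw
    have e1 : (((1 + 1) * w : ℕ) : ℤ) = 2 * w := by push_cast; ring
    have e2 : ((1 * w : ℕ) : ℤ) = w := by push_cast; ring
    rcases fA_cases (p := p) (q := q) (2 * (w : ℤ)) with hA | hA
    · -- `2 w ∉ S`
      have hfr := frob hpq hp0 hA
      set d : ℕ := (2 * w) / p with hd
      have hd1 : p * d ≤ 2 * w := Nat.mul_div_le _ _
      have hd2 : 2 * w < p * d + p := by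
        have := Nat.lt_mul_div_succ (2 * w) hp0
        rw [mul_add, mul_one] at this
        exact this
      have hd1' : ((p * d : ℕ) : ℤ) ≤ 2 * w := by exact_mod_cast hd1
      have hd2' : 2 * (w : ℤ) < ((p * d : ℕ) : ℤ) + p := by exact_mod_cast hd2
      refine ⟨1, p * d, le_refl _, by omega, by linarith, ?_⟩
      rw [e1, e2]
      have hAp : fA p q ((p * d : ℕ) : ℤ) = 1 := by push_cast; exact fA_mul_left d
      have hB1 : fA p q (2 * (w : ℤ) - p) = 0 := by rw [fA_sub_p hpq hp0 hq2']; exact hA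
      have hB2 : fA p q (2 * (w : ℤ) - q) = 0 := by
        apply fA_zero
        rintro ⟨a, b, hab⟩
        have : fA p q (2 * (w : ℤ)) = 1 := fA_one ⟨a, b + 1, by push_cast; linarith⟩
        rw [hA] at this
        norm_num at this
      have hB3 : fA p q (2 * (w : ℤ) - q - p) = 0 := by
        rw [fA_sub_p hpq hp0 hq3']; exact hB2
      rw [fW_eq_fR hp0 hlt (by positivity) (by linarith) _ (by linarith),
        fW_eq_fR hp0 hlt (by positivity) (by linarith) _ (by linarith)]
      unfold fR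
      generalize ((p * d : ℕ) : ℤ) = x at *
      rw [if_neg (c := x ≤ 2 * (w : ℤ) - p) (by linarith),
        min_eq_left (a := x) (b := 2 * (w : ℤ)) (by linarith),
        if_neg (c := x ≤ 2 * (w : ℤ) - q - p) (by linarith),
        min_eq_right (a := x) (b := 2 * (w : ℤ) - q) (by linarith),
        if_neg (c := x ≤ (w : ℤ) - p) (by linarith),
        min_eq_right (a := x) (b := (w : ℤ)) (by linarith),
        if_neg (c := x ≤ (w : ℤ) - q - p) (by linarith),
        min_eq_right (a := x) (b := (w : ℤ) - q) (by linarith),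
        hAp, hB1, hB2, hB3, hAw, hAwp, fA_neg (x := (w : ℤ) - q) (by linarith),
        fA_neg (x := (w : ℤ) - q - p) (by linarith)]
      norm_num
    · -- `2 w ∈ S`
      have hin : inS p q (2 * (w : ℤ)) := by
        by_contra hcon
        rw [fA_zero hcon] at hA
        norm_num at hA
      obtain ⟨α, β, hab⟩ := hin
      have hβ1 : β = 1 := by
        rcases Nat.lt_trichotomy β 1 with h | h | h
        · exfalso
          have : β = 0 := by omega
          subst this
          apply hp2
          refine ⟨α, ?_⟩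
          have hab2 : 2 * (w : ℤ) = α * p := by rw [hab]; push_cast; ring
          have h3 : ((2 * w : ℕ) : ℤ) = ((p * α : ℕ) : ℤ) := by push_cast; linarith
          exact_mod_cast h3
        · exact h
        · exfalso
          have h3 : (2 : ℤ) ≤ β := by exact_mod_cast h
          have h4 : (0 : ℤ) ≤ α * p := by positivity
          nlinarith
      subst hβ1
      have hα : 1 ≤ α := by
        rcases Nat.eq_zero_or_pos α with h | h
        · exfalso
          subst h
          apply hq2'
          exact ⟨1, by rw [hab]; push_cast; ring⟩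
        · exact h
      obtain ⟨γ, rfl⟩ : ∃ γ, α = γ + 1 := ⟨α - 1, by omega⟩
      push_cast at hab
      have hab' : 2 * (w : ℤ) = (p : ℤ) * γ + p + q := by rw [hab]; ring
      have hpγ : ((p * γ + 1 : ℕ) : ℤ) = (p : ℤ) * γ + 1 := by push_cast; ring
      have hpγ0 : (0 : ℤ) ≤ (p : ℤ) * γ := by positivity
      refine ⟨1, p * γ + 1, le_refl _, by omega, by rw [hpγ]; linarith, ?_⟩
      rw [e1, e2]
      have hC1 : fA p q ((p : ℤ) * γ + 1) = 0 := by
        apply fA_small (by linarith)
        apply not_dvd_of_between (k := γ) <;> nlinarith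
      have hC2 : fA p q (2 * (w : ℤ) - q - p) = 1 := by
        rw [hab', show (p : ℤ) * γ + p + q - q - p = (p : ℤ) * γ by ring]
        exact fA_mul_left γ
      rw [fW_eq_fR hp0 hlt (by positivity) (by linarith) _ (by rw [hpγ]; linarith),
        fW_eq_fR hp0 hlt (by positivity) (by linarith) _ (by rw [hpγ]; linarith), hpγ]
      unfold fR
      rw [if_pos (c := (p : ℤ) * γ + 1 ≤ 2 * (w : ℤ) - p) (by linarith),
        if_neg (c := (p : ℤ) * γ + 1 ≤ 2 * (w : ℤ) - q - p) (by linarith),
        min_eq_left (a := (p : ℤ) * γ + 1) (b := 2 * (w : ℤ) - q) (by linarith),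
        if_neg (c := (p : ℤ) * γ + 1 ≤ (w : ℤ) - q - p) (by linarith),
        min_eq_right (a := (p : ℤ) * γ + 1) (b := (w : ℤ) - q) (by linarith),
        hC1, hC2, hAwp, fA_neg (x := (w : ℤ) - q) (by linarith),
        fA_neg (x := (w : ℤ) - q - p) (by linarith)]
      rcases le_total ((p : ℤ) * γ + 1) (w : ℤ) with h | h
      · rw [min_eq_left h, hC1]
        split_ifs <;> norm_num
      · rw [min_eq_right h, hAw]
        split_ifs <;> norm_num

end Pool.Agent.MP4c27ed
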