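import Pool.Agent.Lib_MP_4c27ed_nt.Comb

/-!
# The failure for `r ≡ ± 1` modulo `pq` when `q ≢ -1` modulo `p`
-/

set_option autoImplicit false

namespace Pool.Agent.MP4c27ed

open Finset

variable {p q : ℕ}

/-- The combination which occurs at level `p`. -/
noncomputable def fQ (p q : ℕ) (y : ℤ) (ρ : ℕ) : ℤ :=
  fW p q y ρ - fW p q (y - 1) ρ + fW p q (y - p) ρ

/-- Pattern with value `2`. -/
lemma fQ_pattern_pos (hp : 0 < p) (hlt : p < q) {y : ℤ} {ρ : ℕ}
    (_hy1 : (p : ℤ) ≤ y) (_hy2 : y < (p : ℤ) * q) (hρ : (ρ : ℤ) ≤ (p : ℤ) * q - p - q)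
    (h1 : (ρ : ℤ) ≤ y - 1 - p) (h2 : y - q ≤ ρ) (h3 : y - p - p < ρ)
    (a1 : fA p q (y - q - p) = fA p q (y - q)) (a2 : fA p q (y - 1 - q) = 1)
    (a3 : fA p q (y - 1 - q - p) = 0) (a4 : fA p q ρ = 1) (a5 : fA p q (y - p - p) = 0)
    (a6 : fA p q (y - p - q - p) = fA p q (y - p - q)) : fQ p q y ρ = 2 := by
  have hp' : (0 : ℤ) < p := by exact_mod_cast hp
  have hlt' : (p : ℤ) < q := by exact_mod_cast hlt
  unfold fQ
  rw [fW_eq_fR hp hlt (by linarith) (by linarith) _ hρ,
    fW_eq_fR hp hlt (by linarith) (by linarith) _ hρ,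
    fW_eq_fR hp hlt (by linarith) (by linarith) _ hρ]
  unfold fR
  generalize (ρ : ℤ) = x at *
  rw [if_pos (c := x ≤ y - p) (by linarith), if_neg (c := x ≤ y - q - p) (by linarith),
    min_eq_right (a := x) (b := y - q) h2, if_pos (c := x ≤ y - 1 - p) h1,
    if_neg (c := x ≤ y - 1 - q - p) (by linarith),
    min_eq_right (a := x) (b := y - 1 - q) (by linarith),
    if_neg (c := x ≤ y - p - p) (by linarith),
    min_eq_left (a := x) (b := y - p) (by linarith),
    if_neg (c := x ≤ y - p - q - p) (by linarith),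
    min_eq_right (a := x) (b := y - p - q) (by linarith), a1, a2, a3, a4, a5, a6]
  ring

/-- Pattern with value `-2`. -/
lemma fQ_pattern_neg (hp : 0 < p) (hlt : p < q) {y : ℤ} {ρ : ℕ}
    (_hy1 : (p : ℤ) ≤ y) (_hy2 : y < (p : ℤ) * q) (hρ : (ρ : ℤ) ≤ (p : ℤ) * q - p - q)
    (h1 : (ρ : ℤ) ≤ y - 1 - q) (h2 : y - p - p < ρ) (_h3 : y - p - q ≤ ρ)
    (a1 : fA p q ρ = 0) (a2 : fA p q (y - q - p) = 0)
    (a3 : fA p q (y - 1 - q - p) = 1) (a4 : fA p q (y - p - p) = 1)
    (a5 : fA p q (y - p - q - p) = fA p q (y - p - q)) : fQ p q y ρ = -2 := by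
  have hp' : (0 : ℤ) < p := by exact_mod_cast hp
  have hlt' : (p : ℤ) < q := by exact_mod_cast hlt
  unfold fQ
  rw [fW_eq_fR hp hlt (by linarith) (by linarith) _ hρ,
    fW_eq_fR hp hlt (by linarith) (by linarith) _ hρ,
    fW_eq_fR hp hlt (by linarith) (by linarith) _ hρ]
  unfold fR
  generalize (ρ : ℤ) = x at *
  rw [if_pos (c := x ≤ y - p) (by linarith), if_neg (c := x ≤ y - q - p) (by linarith),
    min_eq_left (a := x) (b := y - q) (by linarith), if_pos (c := x ≤ y - 1 - p) (by linarith),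
    if_neg (c := x ≤ y - 1 - q - p) (by linarith),
    min_eq_left (a := x) (b := y - 1 - q) (by linarith),
    if_neg (c := x ≤ y - p - p) (by linarith),
    min_eq_left (a := x) (b := y - p) (by linarith),
    if_neg (c := x ≤ y - p - q - p) (by linarith),
    min_eq_right (a := x) (b := y - p - q) (by linarith), a1, a2, a3, a4, a5]
  ring

/-- Case `q > 2 p`. -/
lemma comb_a_large (hp : 3 ≤ p)
    {k b : ℕ} (hk : 2 ≤ k) (hq : q = k * p + b) (hb1 : 1 ≤ b) (hb2 : b + 1 < p) :
    fQ p q ((q : ℤ) + 1) ((k - 1) * p) = 2 := by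
  have hp0 : 0 < p := by omega
  obtain ⟨j, rfl⟩ : ∃ j, k = j + 2 := ⟨k - 2, by omega⟩
  have hq' : (q : ℤ) = j * p + 2 * p + b := by
    rw [hq]; push_cast; ring
  have hlt : p < q := by rw [hq]; nlinarith
  have hp3 : (3 : ℤ) ≤ p := by exact_mod_cast hp
  have hlt' : (p : ℤ) < q := by exact_mod_cast hlt
  have hpq3 : (3 : ℤ) * q ≤ (p : ℤ) * q := by nlinarith
  have hb1' : (1 : ℤ) ≤ b := by exact_mod_cast hb1
  have hb2' : (b : ℤ) + 1 < p := by exact_mod_cast hb2
  have hj : (0 : ℤ) ≤ (j : ℤ) * p := by positivity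
  have hρ : (((j + 2 - 1) * p : ℕ) : ℤ) = (j : ℤ) * p + p := by
    rw [show j + 2 - 1 = j + 1 by omega]; push_cast; ring
  have hAρ : fA p q ((j : ℤ) * p + p) = 1 := fA_one ⟨j + 1, 0, by push_cast; ring⟩
  have hA1 : fA p q 1 = 0 := by
    apply fA_small (by linarith)
    apply not_dvd_of_between (k := 0) <;> linarith
  have hAk : fA p q ((j : ℤ) * p + b + 1) = 0 := by
    apply fA_small (by linarith)
    apply not_dvd_of_between (k := j) <;> nlinarith
  apply fQ_pattern_pos hp0 hlt (by linarith) (by linarith) (by rw [hρ]; linarith)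
    (by rw [hρ]; linarith) (by rw [hρ]; linarith) (by rw [hρ]; linarith)
  · rw [show (q : ℤ) + 1 - q = 1 by ring, hA1, fA_neg (by linarith)]
  · rw [show (q : ℤ) + 1 - 1 - q = 0 by ring, fA_zero_arg]
  · rw [show (q : ℤ) + 1 - 1 - q = 0 by ring, fA_neg (by linarith)]
  · rw [hρ, hAρ]
  · rw [show (q : ℤ) + 1 - p - p = (j : ℤ) * p + b + 1 by rw [hq']; ring, hAk]
  · rw [fA_neg (x := (q : ℤ) + 1 - p - q) (by linarith), fA_neg (by linarith)]

/-- Case `q < 2 p` and `p ≢ 1` modulo `q - p`. -/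
lemma comb_a_small1 (hpq : Nat.Coprime p q) (hp : 3 ≤ p)
    {b j e μ k' : ℕ} (hb : 2 ≤ b) (hq : q = p + b) (hbp : b + 1 < p)
    (hj : j * b + 1 = p + e) (he1 : 1 ≤ e) (heb : e < b)
    (hμ : b * μ = 1 + p * k') (hk : k' + 1 < b) :
    fQ p q ((j * q + 1 : ℕ) : ℤ) (j * p) = 2 := by
  have hp0 : 0 < p := by omega
  have hlt : p < q := by omega
  have hp3 : (3 : ℤ) ≤ p := by exact_mod_cast hp
  have hlt' : (p : ℤ) < q := by exact_mod_cast hlt
  have hpq3 : (3 : ℤ) * q ≤ (p : ℤ) * q := by nlinarith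
  -- `j + μ < p`
  have hjμ : j + μ < p := by
    have h1 : b * (j + μ) = p * (k' + 1) + e := by
      have : b * j + 1 = p + e := by rw [mul_comm]; exact hj
      nlinarith
    by_contra hcon
    push Not at hcon
    have h2 : b * p ≤ b * (j + μ) := Nat.mul_le_mul_left b hcon
    have h3 : p * (k' + 1) + p ≤ b * p := by
      have : (k' + 2) * p ≤ b * p := Nat.mul_le_mul_right p (by omega)
      linarith [show (k' + 2) * p = p * (k' + 1) + p by ring]
    omega
  have hj1 : 1 ≤ j := by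
    rcases Nat.eq_zero_or_pos j with h | h
    · subst h; omega
    · exact h
  have hμ1 : 1 ≤ μ := by
    rcases Nat.eq_zero_or_pos μ with h | h
    · subst h; omega
    · exact h
  -- integer versions
  have zj : (j : ℤ) * b + 1 = p + e := by exact_mod_cast hj
  have zμ : (b : ℤ) * μ = 1 + p * k' := by exact_mod_cast hμ
  have zq : (q : ℤ) = p + b := by exact_mod_cast hq
  have zb : (2 : ℤ) ≤ b := by exact_mod_cast hb
  have zbp : (b : ℤ) + 1 < p := by exact_mod_cast hbp
  have ze1 : (1 : ℤ) ≤ e := by exact_mod_cast he1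
  have zeb : (e : ℤ) < b := by exact_mod_cast heb
  have zjμ : (j : ℤ) + μ < p := by exact_mod_cast hjμ
  have zj1 : (1 : ℤ) ≤ j := by exact_mod_cast hj1
  have zμ1 : (1 : ℤ) ≤ μ := by exact_mod_cast hμ1
  have zy : ((j * q + 1 : ℕ) : ℤ) = (j : ℤ) * p + p + e := by
    push_cast
    rw [zq]
    linear_combination zj
  have zjq : (j : ℤ) * q = (j : ℤ) * p + p + e - 1 := by
    rw [zq]; linear_combination zj
  have hρ : ((j * p : ℕ) : ℤ) = (j : ℤ) * p := by push_cast; ring
  have hjp : (j : ℤ) * p ≤ (p : ℤ) * p - 2 * p := by nlinarith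
  have hjp0 : (p : ℤ) ≤ (j : ℤ) * p := by nlinarith
  have hpqb : (p : ℤ) * q = p * p + b * p := by rw [zq]; ring
  have hbp2 : 2 * (p : ℤ) ≤ b * p := by nlinarith
  -- membership facts
  have hAρ : fA p q ((j : ℤ) * p) = 1 := fA_one ⟨j, 0, by push_cast; ring⟩
  have hκ : fA p q ((j : ℤ) * p + e - p) = 0 := by
    apply fA_zero
    refine not_inS_of_rep hpq hp0 (u := -((μ : ℤ) + k' + 2)) (v := (j : ℤ) + μ) ?_ ?_ zjμ
    · rw [zq]; linear_combination -zj - zμ
    · have : (0 : ℤ) ≤ k' := by positivity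
      linarith
  have hd1 : ¬ (q : ℤ) ∣ (j : ℤ) * p + e - b := by
    intro h
    have h2 : (j : ℤ) * p + e - b = ((j : ℤ) - 1) * q + 1 := by rw [zq]; linear_combination -zj
    rw [h2] at h
    have h3 : (q : ℤ) ∣ 1 := (Int.dvd_add_right (Dvd.intro_left _ rfl)).1 h
    have := Int.le_of_dvd (by norm_num) h3
    linarith
  have hd2 : ¬ (q : ℤ) ∣ (j : ℤ) * p + e - q := by
    intro h
    have h2 : (j : ℤ) * p + e - q = ((j : ℤ) - 1) * q + (1 - p) := by
      rw [zq]; linear_combination -zj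
    rw [h2] at h
    have h3 : (q : ℤ) ∣ (1 - p) := (Int.dvd_add_right (Dvd.intro_left _ rfl)).1 h
    have h4 : (q : ℤ) ∣ ((p : ℤ) - 1) := by
      have := (dvd_neg).2 h3
      simpa using this
    have := Int.le_of_dvd (by linarith) h4
    linarith
  have hE1 : fA p q ((j : ℤ) * p + e - b - p) = fA p q ((j : ℤ) * p + e - b) :=
    fA_sub_p hpq hp0 hd1
  have hE2 : fA p q ((j : ℤ) * p + e - q - p) = fA p q ((j : ℤ) * p + e - q) :=
    fA_sub_p hpq hp0 hd2
  have hE3 : fA p q ((j : ℤ) * p + e - 1 - b) = 1 := by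
    apply fA_one
    refine inS_of_rep (u := 0) (v := (j : ℤ) - 1) ?_ (le_refl _) (by linarith)
    rw [zq]; linear_combination -zj
  have hE4 : fA p q ((j : ℤ) * p + e - 1 - b - p) = 0 := by
    apply fA_zero
    refine not_inS_of_rep hpq hp0 (u := -1) (v := (j : ℤ) - 1) ?_ (by norm_num) (by linarith)
    rw [zq]; linear_combination -zj
  rw [zy]
  apply fQ_pattern_pos hp0 hlt (by linarith) (by linarith) (by rw [hρ]; linarith)
    (by rw [hρ]; linarith) (by rw [hρ]; linarith) (by rw [hρ]; linarith)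
  · rw [show (j : ℤ) * p + p + e - q - p = (j : ℤ) * p + e - b - p by rw [zq]; ring,
      show (j : ℤ) * p + p + e - q = (j : ℤ) * p + e - b by rw [zq]; ring, hE1]
  · rw [show (j : ℤ) * p + p + e - 1 - q = (j : ℤ) * p + e - 1 - b by rw [zq]; ring, hE3]
  · rw [show (j : ℤ) * p + p + e - 1 - q - p = (j : ℤ) * p + e - 1 - b - p by rw [zq]; ring, hE4]
  · rw [hρ, hAρ]
  · rw [show (j : ℤ) * p + p + e - p - p = (j : ℤ) * p + e - p by ring, hκ]
  · rw [show (j : ℤ) * p + p + e - p - q - p = (j : ℤ) * p + e - q - p by ring,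
      show (j : ℤ) * p + p + e - p - q = (j : ℤ) * p + e - q by ring, hE2]

/-- Case `q < 2 p` and `p ≡ 1` modulo `q - p`. -/
lemma comb_a_small2 (hpq : Nat.Coprime p q) (hp : 3 ≤ p)
    {b h : ℕ} (hb : 2 ≤ b) (hq : q = p + b) (hbp : b + 2 < p)
    (hh : b * h + 1 = p) :
    fQ p q (((h + 2) * p : ℕ) : ℤ) ((h + 2) * p - q - 2) = -2 := by
  have hp0 : 0 < p := by omega
  have hlt : p < q := by omega
  have hh2 : 2 ≤ h := by
    by_contra hcon
    push Not at hcon
    have : h = 0 ∨ h = 1 := by omega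
    rcases this with rfl | rfl
    · omega
    · omega
  have zh : (b : ℤ) * h + 1 = p := by exact_mod_cast hh
  have zq : (q : ℤ) = p + b := by exact_mod_cast hq
  have zb : (2 : ℤ) ≤ b := by exact_mod_cast hb
  have zbp : (b : ℤ) + 2 < p := by exact_mod_cast hbp
  have zh2 : (2 : ℤ) ≤ h := by exact_mod_cast hh2
  have hp3 : (3 : ℤ) ≤ p := by exact_mod_cast hp
  have hlt' : (p : ℤ) < q := by exact_mod_cast hlt
  have hpqb : (p : ℤ) * q = p * p + b * p := by rw [zq]; ring
  have h2h : 2 * (h : ℤ) + 1 ≤ p := by nlinarith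
  have hhp : (h : ℤ) * p + 2 * p ≤ p * p := by nlinarith
  have hbpp : 2 * (p : ℤ) ≤ b * p := by nlinarith
  have hhp0 : 2 * (p : ℤ) ≤ h * p := by nlinarith
  have hy : (((h + 2) * p : ℕ) : ℤ) = (h : ℤ) * p + 2 * p := by push_cast; ring
  have hle : q + 2 ≤ (h + 2) * p := by
    have : ((q + 2 : ℕ) : ℤ) ≤ (((h + 2) * p : ℕ) : ℤ) := by
      rw [hy]; push_cast; rw [zq]; linarith
    exact_mod_cast this
  have hρ : (((h + 2) * p - q - 2 : ℕ) : ℤ) = (h : ℤ) * p + 2 * p - q - 2 := by
    have e1 : (h + 2) * p - q - 2 = (h + 2) * p - (q + 2) := by omega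
    rw [e1, Nat.cast_sub hle, hy]; push_cast; ring
  have key : (h : ℤ) * q = h * p + p - 1 := by rw [zq]; linear_combination zh
  -- membership facts
  have hF1 : fA p q ((h : ℤ) * p + 2 * p - q - 2) = 0 := by
    apply fA_zero
    refine not_inS_of_rep hpq hp0 (u := -(h : ℤ)) (v := 2 * (h : ℤ) - 1) ?_ (by linarith)
      (by linarith)
    linear_combination (-2) * key
  have hF2 : fA p q ((h : ℤ) * p + 2 * p - q - p) = 0 := by
    apply fA_zero
    refine not_inS_of_rep hpq hp0 (u := (h : ℤ) + 1 - q) (v := (p : ℤ) - 1) ?_ (by linarith)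
      (by linarith)
    ring
  have hF3 : fA p q ((h : ℤ) * p + 2 * p - 1 - q - p) = 1 := by
    apply fA_one
    refine inS_of_rep (u := 0) (v := (h : ℤ) - 1) ?_ (le_refl _) (by linarith)
    linear_combination -key
  have hF4 : fA p q ((h : ℤ) * p + 2 * p - p - p) = 1 :=
    fA_one ⟨h, 0, by push_cast; ring⟩
  have hF5 : fA p q ((h : ℤ) * p + 2 * p - p - q) = 0 := by
    rw [show (h : ℤ) * p + 2 * p - p - q = (h : ℤ) * p + 2 * p - q - p by ring, hF2]
  have hF6 : fA p q ((h : ℤ) * p + 2 * p - p - q - p) = 0 := by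
    apply fA_zero
    refine not_inS_of_rep hpq hp0 (u := (h : ℤ) - q) (v := (p : ℤ) - 1) ?_ (by linarith)
      (by linarith)
    ring
  have hfr := frob hpq hp0 hF1
  rw [hy]
  apply fQ_pattern_neg hp0 hlt (by linarith) (by linarith) (by rw [hρ]; linarith)
    (by rw [hρ]; linarith) (by rw [hρ]; linarith) (by rw [hρ]; linarith)
  · rw [hρ, hF1]
  · exact hF2
  · exact hF3
  · exact hF4
  · rw [hF5, hF6]

lemma comb_bound {p q b j m : ℤ} (zj : j * b + 1 = p + m) (zb : 2 ≤ b) (zb3 : b + 2 < p)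
    (zm : m ≤ b) (zq : q = p + b) (hj0 : 0 ≤ j) : j * p ≤ p * q - p - q := by
  have h1 : j * 2 ≤ j * b := mul_le_mul_of_nonneg_left zb hj0
  have h2 : j ≤ p - 2 := by linarith
  have h3 : j * p ≤ (p - 2) * p := mul_le_mul_of_nonneg_right h2 (by linarith)
  have h4 : b ≤ b * p := by nlinarith
  rw [zq]
  linarith [show (p - 2) * p = p * p - 2 * p by ring, show p * (p + b) = p * p + b * p by ring]

lemma comb_bound2 {p q b h : ℤ} (zh : b * h + 1 = p) (zb : 2 ≤ b) (zq : q = p + b)
    (hh0 : 0 ≤ h) (hp : 0 < p) : h * p + 2 * p - q ≤ p * q - p - q := by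
  have h1 : 2 * h ≤ b * h := mul_le_mul_of_nonneg_right zb hh0
  have h2 : 2 * h + 1 ≤ p := by linarith
  have h3 : (2 * h + 1) * p ≤ p * p := mul_le_mul_of_nonneg_right h2 hp.le
  have h4 : 2 * p ≤ b * p := mul_le_mul_of_nonneg_right zb hp.le
  have h5 : 0 ≤ h * p := mul_nonneg hh0 hp.le
  have h6 : p * (p + b) = p * p + b * p := by ring
  have h7 : (2 * h + 1) * p = 2 * (h * p) + p := by ring
  rw [zq, h6]
  linarith

/-- If `q ≢ -1` modulo `p`, the combination at level `p` takes a value of modulus two. -/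
lemma comb_a (hpq : Nat.Coprime p q) (hp : 3 ≤ p) (hpo : Odd p) (hqo : Odd q) (hlt : p < q)
    (hpq1 : ¬ p ∣ q) (hq1 : ¬ p ∣ q + 1) :
    ∃ (y : ℤ) (ρ : ℕ), (ρ : ℤ) ≤ (p : ℤ) * q - p - q ∧ |fQ p q y ρ| = 2 := by
  have hp0 : 0 < p := by omega
  have hp3 : (3 : ℤ) ≤ p := by exact_mod_cast hp
  have hlt' : (p : ℤ) < q := by exact_mod_cast hlt
  have hpq3 : (3 : ℤ) * q ≤ (p : ℤ) * q := by nlinarith
  set k : ℕ := q / p with hk
  set b : ℕ := q % p with hb
  have hdm : p * k + b = q := Nat.div_add_mod _ _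
  have hbp : b < p := Nat.mod_lt _ hp0
  have hb0 : 1 ≤ b := by
    rcases Nat.eq_zero_or_pos b with h | h
    · exact absurd (Nat.dvd_of_mod_eq_zero (by rw [← hb]; exact h)) hpq1
    · exact h
  have hb1 : b + 1 < p := by
    have : b + 1 ≠ p := by
      intro h
      apply hq1
      exact ⟨k + 1, by rw [← hdm, add_assoc, h]; ring⟩
    omega
  have hk1 : 1 ≤ k := by
    rcases Nat.eq_zero_or_pos k with h | h
    · rw [h] at hdm; omega
    · exact h
  rcases Nat.lt_or_ge 1 k with hk2 | hk2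
  · refine ⟨(q : ℤ) + 1, (k - 1) * p, ?_, ?_⟩
    · have h1 : (((k - 1) * p : ℕ) : ℤ) = (k : ℤ) * p - p := by
        rw [Nat.cast_mul, Nat.cast_sub hk1]; push_cast; ring
      have h2 : (p : ℤ) * k + b = q := by exact_mod_cast hdm
      have h3 : (0 : ℤ) ≤ b := by positivity
      rw [h1]
      linarith
    · rw [comb_a_large hp hk2 (by rw [← hdm]; ring) hb0 hb1]
      norm_num
  · have hk' : k = 1 := by omega
    rw [hk', mul_one] at hdm
    -- parity
    have hbe : Even b := by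
      have h1 : b = q - p := by omega
      rw [h1]
      exact Nat.Odd.sub_odd hqo hpo
    have hb2 : 2 ≤ b := by
      obtain ⟨c, hc⟩ := hbe
      omega
    have hb3 : b + 2 < p := by
      obtain ⟨c, hc⟩ := hbe
      obtain ⟨d, hd⟩ := hpo
      omega
    by_cases hmod : b ∣ p - 1
    · obtain ⟨h, hh⟩ := hmod
      have hle : (((h + 2) * p - q - 2 : ℕ) : ℤ) ≤ (p : ℤ) * q - p - q := by
        have hh' : b * h + 1 = p := by omega
        have zh : (b : ℤ) * h + 1 = p := by exact_mod_cast hh'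
        have zb : (2 : ℤ) ≤ b := by exact_mod_cast hb2
        have zq : (q : ℤ) = p + b := by exact_mod_cast hdm.symm
        have zh0 : (0 : ℤ) ≤ h := by positivity
        have h1 : (((h + 2) * p - q - 2 : ℕ) : ℤ) ≤ (h : ℤ) * p + 2 * p - q := by
          have h2 : (((h + 2) * p - q - 2 : ℕ) : ℤ) ≤ (((h + 2) * p - q : ℕ) : ℤ) := by
            exact_mod_cast Nat.sub_le _ _
          rcases le_total q ((h + 2) * p) with h3 | h3
          · rw [Nat.cast_sub h3] at h2
            push_cast at h2 ⊢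
            linarith
          · rw [Nat.sub_eq_zero_of_le h3] at h2 ⊢
            have h4 : (h + 2) * p = h * p + 2 * p := by ring
            have h5 : 2 * p > q := by omega
            omega
        exact h1.trans (comb_bound2 zh zb zq zh0 (by linarith))
      refine ⟨(((h + 2) * p : ℕ) : ℤ), (h + 2) * p - q - 2, hle, ?_⟩
      rw [comb_a_small2 hpq hp hb2 hdm.symm hb3 (by omega)]
      norm_num
    · -- `j = ⌈(p-1)/b⌉`
      set j : ℕ := (p - 1) / b + 1 with hj
      have hjm := Nat.div_add_mod (p - 1) b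
      have hjlt := Nat.mod_lt (p - 1) (show 0 < b by omega)
      have hjne : (p - 1) % b ≠ 0 := fun h => hmod (Nat.dvd_of_mod_eq_zero h)
      have hcop : Nat.Coprime b p := by
        have h1 : q = b + p := by omega
        rw [h1, Nat.coprime_add_self_right] at hpq
        exact hpq.symm
      obtain ⟨μ, hμp, hμ⟩ := Nat.exists_mul_mod_eq_one_of_coprime hcop (show 1 < p by omega)
      have hμd := Nat.div_add_mod (b * μ) p
      rw [hμ] at hμd
      set k' : ℕ := b * μ / p with hk'd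
      have hkb : k' + 1 < b := by
        by_contra hcon
        push Not at hcon
        have h1 : p * k' < b * p := by
          have : b * μ < b * p := (Nat.mul_lt_mul_left (by omega)).2 hμp
          omega
        have h2 : k' < b := by
          by_contra h3
          push Not at h3
          have : p * b ≤ p * k' := Nat.mul_le_mul_left p h3
          rw [mul_comm b p] at h1
          omega
        have h3 : k' + 1 = b := by omega
        -- `b μ = 1 + p (b - 1)`, so `b ∣ p - 1`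
        apply hmod
        have h4 : b * μ + (p - 1) = b * p := by
          have : p * (k' + 1) = p * k' + p := by ring
          rw [h3] at this
          rw [mul_comm b p]
          omega
        exact (Nat.dvd_add_right (Dvd.intro μ rfl)).1 (h4 ▸ Dvd.intro p rfl)
      set m : ℕ := (p - 1) % b with hm
      -- `j b + 1 = p + (b - m)`
      have hjb : j * b + 1 = p + (b - m) := by
        have : j * b = b * ((p - 1) / b) + b := by rw [hj]; ring
        omega
      refine ⟨((j * q + 1 : ℕ) : ℤ), j * p, ?_, ?_⟩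
      · have zj : (j : ℤ) * b + 1 = p + ((b - m : ℕ) : ℤ) := by exact_mod_cast hjb
        push_cast
        exact comb_bound zj (by exact_mod_cast hb2) (by exact_mod_cast hb3)
          (by exact_mod_cast Nat.sub_le _ _) (by exact_mod_cast hdm.symm) (by positivity)
      · rw [comb_a_small1 (p := p) (q := q) hpq hp hb2 hdm.symm hb1 hjb (by omega) (by omega)
          (μ := μ) (k' := k') (by omega) hkb]
        norm_num

end Pool.Agent.MP4c27ed
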