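import Pool.Agent.Lib_MP_4c27ed_nt.Comb

/-!
# Opposite coefficients of `Φ_{pq}` at a given distance `d < p`
-/

set_option autoImplicit false
set_option maxHeartbeats 4000000

namespace Pool.Agent.MP4c27ed

open Finset

variable {p q : ℕ}

/-- For every `1 ≤ d < p` there are coefficients `1` and `-1` of `Φ_{pq}` at distance `d`. -/
lemma comb_e (hpq : Nat.Coprime p q) (hp : 3 ≤ p) (hlt : p < q) {d : ℕ} (hd : 1 ≤ d)
    (hdp : d < p) : ∃ u : ℕ, fa p q (u : ℤ) = 1 ∧ fa p q ((u : ℤ) + d) = -1 := by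
  have hp0 : 0 < p := by omega
  have hlt' : (p : ℤ) < q := by exact_mod_cast hlt
  have hd' : (1 : ℤ) ≤ d := by exact_mod_cast hd
  have hdp' : (d : ℤ) < p := by exact_mod_cast hdp
  have hp3 : (3 : ℤ) ≤ p := by exact_mod_cast hp
  obtain ⟨μ, hμp, hμ⟩ := Nat.exists_mul_mod_eq_one_of_coprime hpq.symm (show 1 < p by omega)
  have h0 := Nat.div_add_mod (q * μ) p
  rw [hμ] at h0
  set m0 : ℕ := q * μ / p with hm0
  set δ : ℕ := (d * μ) % p with hδ
  have h1 := Nat.div_add_mod (d * μ) p
  rw [← hδ] at h1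
  set m1 : ℕ := d * μ / p with hm1
  have hδp : δ < p := Nat.mod_lt _ hp0
  have hμ1 : 1 ≤ μ := by
    rcases Nat.eq_zero_or_pos μ with h | h
    · exfalso
      rw [h, mul_zero] at hμ
      rw [Nat.zero_mod] at hμ
      exact absurd hμ (by norm_num)
    · exact h
  have hμcop : Nat.Coprime p μ := by
    have h2 : Nat.Coprime p (q * μ) := by
      rw [← h0]
      simp
    exact Nat.Coprime.coprime_mul_left_right h2
  have hδ1 : 1 ≤ δ := by
    rcases Nat.eq_zero_or_pos δ with h | h
    · exfalso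
      have h2 : p ∣ d * μ := Nat.dvd_of_mod_eq_zero (by rw [← hδ]; exact h)
      have h3 : p ∣ d := hμcop.dvd_of_dvd_mul_right h2
      have := Nat.le_of_dvd (by omega) h3
      omega
    · exact h
  -- integer versions
  have z0 : (p : ℤ) * m0 + 1 = q * μ := by exact_mod_cast h0
  have z1 : (p : ℤ) * m1 + δ = d * μ := by exact_mod_cast h1
  have zμ1 : (1 : ℤ) ≤ μ := by exact_mod_cast hμ1
  have zμp : (μ : ℤ) < p := by exact_mod_cast hμp
  have zδ1 : (1 : ℤ) ≤ δ := by exact_mod_cast hδ1
  have zδp : (δ : ℤ) < p := by exact_mod_cast hδp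
  have hq0 : (0 : ℤ) < q := by linarith
  have hp' : (0 : ℤ) < p := by linarith
  rcases Nat.lt_trichotomy δ μ with hc | hc | hc
  · -- `δ < μ`
    have zc : (δ : ℤ) + 1 ≤ μ := by exact_mod_cast hc
    have hcast : (((μ - δ) * q : ℕ) : ℤ) = ((μ : ℤ) - δ) * q := by
      rw [Nat.cast_mul, Nat.cast_sub hc.le]
    have hjq : (0 : ℤ) ≤ ((μ : ℤ) - δ) * q := mul_nonneg (by linarith) hq0.le
    refine ⟨(μ - δ) * q, ?_, ?_⟩
    · rw [hcast]
      unfold fa
      rw [fA_one (x := ((μ : ℤ) - δ) * q), fA_zero (x := ((μ : ℤ) - δ) * q - 1)]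
      · ring
      · refine not_inS_of_rep hpq hp0 (u := (m0 : ℤ) - q) (v := (p : ℤ) - δ) ?_ ?_ (by linarith)
        · linear_combination -z0
        · -- `m0 < q`
          have : (q : ℤ) * μ < q * p := (mul_lt_mul_iff_right₀ hq0).2 zμp
          by_contra hcon
          push Not at hcon
          have h5 : (p : ℤ) * q ≤ p * m0 := mul_le_mul_of_nonneg_left (by linarith) hp'.le
          linarith [mul_comm (p : ℤ) q]
      · exact inS_of_rep (u := 0) (v := (μ : ℤ) - δ) (by ring) (le_refl _) (by linarith)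
    · rw [hcast]
      unfold fa
      have hδq : (q : ℤ) ≤ δ * q := by nlinarith
      have e1 : ((μ : ℤ) - δ) * q + d - 1 = ((m0 : ℤ) - d * m0 + q * m1) * p + 0 * q := by
        linear_combination (1 - (d : ℤ)) * (-z0) - q * z1
      have e2 : ((μ : ℤ) - δ) * q + d = ((q : ℤ) * m1 - d * m0) * p + μ * q := by
        linear_combination (d : ℤ) * z0 - q * z1
      rw [fA_zero (x := ((μ : ℤ) - δ) * q + d), fA_one (x := ((μ : ℤ) - δ) * q + d - 1)]
      · ring
      · refine inS_of_rep e1 ?_ (le_refl _)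
        by_contra hcon
        push Not at hcon
        have h5 : ((m0 : ℤ) - d * m0 + q * m1) * p < 0 := mul_neg_of_neg_of_pos hcon hp'
        linarith
      · refine not_inS_of_rep hpq hp0 e2 ?_ zμp
        by_contra hcon
        push Not at hcon
        have h5 : 0 ≤ ((q : ℤ) * m1 - d * m0) * p := mul_nonneg hcon hp'.le
        have h6 : ((μ : ℤ) - δ) * q = μ * q - δ * q := by ring
        linarith
  · -- `δ = μ`, `d = 1`
    have hd1 : d = 1 := by
      have h3 : p ∣ (d - 1) * μ := by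
        have : (d - 1) * μ = p * m1 := by
          rw [Nat.sub_mul]
          omega
        exact ⟨m1, this⟩
      have h4 : p ∣ d - 1 := hμcop.dvd_of_dvd_mul_right h3
      rcases Nat.eq_zero_or_pos (d - 1) with h5 | h5
      · omega
      · have := Nat.le_of_dvd h5 h4
        omega
    subst hd1
    refine ⟨0, ?_, ?_⟩
    · exact fa_zero_arg
    · unfold fa
      have hA1 : fA p q 1 = 0 := by
        apply fA_small (by linarith)
        apply not_dvd_of_between (k := 0) <;> linarith
      have e1 : (((0 : ℕ) : ℤ) + ((1 : ℕ) : ℤ)) = 1 := by norm_num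
      rw [e1, hA1, show (1 : ℤ) - 1 = 0 by norm_num, fA_zero_arg]
      norm_num
  · -- `δ > μ`
    have zc : (μ : ℤ) + 1 ≤ δ := by exact_mod_cast hc
    have hqle : (q : ℤ) ≤ ((δ : ℤ) - μ) * q := by nlinarith
    have hdle : d ≤ (δ - μ) * q + 1 := by
      have : q ≤ (δ - μ) * q := Nat.le_mul_of_pos_left q (by omega)
      omega
    have hcast : (((δ - μ) * q + 1 - d : ℕ) : ℤ) = ((δ : ℤ) - μ) * q + 1 - d := by
      rw [Nat.cast_sub hdle, Nat.cast_add, Nat.cast_mul, Nat.cast_sub hc.le]; norm_num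
    refine ⟨(δ - μ) * q + 1 - d, ?_, ?_⟩
    · rw [hcast]
      unfold fa
      have e1 : ((δ : ℤ) - μ) * q + 1 - d = ((d : ℤ) * m0 - q * m1 - m0) * p + 0 * q := by
        linear_combination (1 - (d : ℤ)) * z0 + q * z1
      have e2 : ((δ : ℤ) - μ) * q + 1 - d - 1
          = ((d : ℤ) * m0 - q * m1 - q) * p + ((p : ℤ) - μ) * q := by
        linear_combination (-(d : ℤ)) * z0 + q * z1
      rw [fA_one (x := ((δ : ℤ) - μ) * q + 1 - d),
        fA_zero (x := ((δ : ℤ) - μ) * q + 1 - d - 1)]
      · ring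
      · refine not_inS_of_rep hpq hp0 e2 ?_ (by linarith)
        by_contra hcon
        push Not at hcon
        have h5 : 0 ≤ ((d : ℤ) * m0 - q * m1 - q) * p := mul_nonneg hcon hp'.le
        have h6 : ((δ : ℤ) - μ) * q + 1 - d - 1 = δ * q - μ * q - d := by ring
        have h7 : ((p : ℤ) - μ) * q = p * q - μ * q := by ring
        have h8 : (δ : ℤ) * q ≤ p * q := mul_le_mul_of_nonneg_right zδp.le hq0.le
        linarith
      · refine inS_of_rep e1 ?_ (le_refl _)
        by_contra hcon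
        push Not at hcon
        have h5 : ((d : ℤ) * m0 - q * m1 - m0) * p < 0 := mul_neg_of_neg_of_pos hcon hp'
        linarith
    · rw [hcast]
      unfold fa
      have e3 : ((δ : ℤ) - μ) * q + 1 - d + d = (-(m0 : ℤ)) * p + (δ : ℤ) * q := by
        linear_combination z0
      have e4 : ((δ : ℤ) - μ) * q + 1 - d + d - 1 = 0 * (p : ℤ) + ((δ : ℤ) - μ) * q := by ring
      rw [fA_zero (x := ((δ : ℤ) - μ) * q + 1 - d + d),
        fA_one (x := ((δ : ℤ) - μ) * q + 1 - d + d - 1)]
      · ring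
      · exact inS_of_rep e4 (le_refl _) (by linarith)
      · refine not_inS_of_rep hpq hp0 e3 ?_ zδp
        have hm01 : (0 : ℤ) < m0 := by
          by_contra hcon
          push Not at hcon
          have h5 : (p : ℤ) * m0 ≤ 0 := mul_nonpos_of_nonneg_of_nonpos hp'.le hcon
          have h6 : (q : ℤ) ≤ q * μ := by nlinarith
          linarith
        linarith

end Pool.Agent.MP4c27ed
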