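import Pool.Agent.Lib_MP_4c27ed_nt.Blocks
import Pool.Agent.Lib_MP_4c27ed_nt.Comb2
import Pool.Agent.Lib_MP_4c27ed_nt.Comb3

/-!
# Flat `Φ_{pqrs}` with `s ≡ ± 1` modulo `pqr`
-/

set_option autoImplicit false
set_option maxHeartbeats 1000000

namespace Pool.Agent.MP4c27ed

open Finset

variable {p q r s : ℕ}

/-- The consequence of flatness that is used. -/
def FlatD (p q r : ℕ) : Prop :=
  ∀ t Y : ℕ, t < Y → Y < p * q * r → |fD p q r t Y| ≤ 1

lemma r_lt_n (H : Hyp p q r) : r < p * q * r := by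
  have h1 := H.big3
  have h2 := H.q0
  have h3 := H.r0
  have h4 : 2 ≤ p * q := by omega
  have h5 : 2 * r ≤ p * q * r := Nat.mul_le_mul_right r h4
  omega

lemma step2 (H : Hyp p q r) (hF : FlatD p q r) {κ : ℕ} (hκ : κ ≤ r)
    (hc : (r : ℤ) ≡ (κ : ℤ) [ZMOD ((p : ℤ) * q)]) (h1 : q < κ)
    (h2 : (κ : ℤ) < (p : ℤ) * q - q) : False := by
  have hq : ¬ q ∣ κ := by
    intro h
    have h3 : (q : ℤ) ∣ (κ : ℤ) := by exact_mod_cast h
    have h4 : (q : ℤ) ∣ (r : ℤ) := by
      have h5 : (p : ℤ) * q ∣ (κ : ℤ) - r := hc.dvd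
      have h6 : (q : ℤ) ∣ (κ : ℤ) - r := dvd_trans (dvd_mul_left _ _) h5
      have := dvd_sub h3 h6
      simpa using this
    have h5 : q ∣ r := by exact_mod_cast h4
    have h6 := (Nat.prime_dvd_prime_iff_eq H.hq H.hr).1 h5
    have := H.hqr
    omega
  obtain ⟨ρ, hρ, hW⟩ := comb_b0 H.cop H.h3 H.hpq h1 h2 hq
  have hD := fD_case0 H (t := r - ρ - 1) (ρ := ρ) (by omega) (by omega)
  rw [fW_congr hc, hW] at hD
  have := hF (r - ρ - 1) r (by omega) (r_lt_n H)
  rw [hD] at this
  norm_num at this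

lemma step3 (H : Hyp p q r) (hF : FlatD p q r) {w : ℕ} (hw : 2 ≤ w) (hwq : w < q)
    (hc : (r : ℤ) ≡ (w : ℤ) [ZMOD ((p : ℤ) * q)] ∨ (r : ℤ) ≡ -(w : ℤ) [ZMOD ((p : ℤ) * q)]) :
    False := by
  have hpr : ¬ p ∣ r := by
    intro h
    have h6 := (Nat.prime_dvd_prime_iff_eq H.hp H.hr).1 h
    have := H.hpq
    have := H.hqr
    omega
  have hpw : ¬ p ∣ w := by
    intro h
    apply hpr
    have h3 : (p : ℤ) ∣ (w : ℤ) := by exact_mod_cast h
    have h4 : (p : ℤ) ∣ (r : ℤ) := by
      rcases hc with hc | hc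
      · have h6 : (p : ℤ) ∣ (w : ℤ) - r := dvd_trans (dvd_mul_right _ _) hc.dvd
        have := dvd_sub h3 h6
        simpa using this
      · have h6 : (p : ℤ) ∣ -(w : ℤ) - r := dvd_trans (dvd_mul_right _ _) hc.dvd
        have h7 := dvd_add h3 h6
        have e : (w : ℤ) + (-(w : ℤ) - r) = -(r : ℤ) := by ring
        rw [e] at h7
        exact (dvd_neg).1 h7
    exact_mod_cast h4
  obtain ⟨l, ρ, hl, hlp, hρ, hW⟩ := comb_bl H.cop H.h3 H.hp H.hq H.hpq hw hwq hpw
  have hbig := H.big
  have hbigZ := H.bigZ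
  have hqr := H.hqr
  have hpq := H.hpq
  have hcastN : ((p * q - p - q : ℕ) : ℤ) = (p : ℤ) * q - p - q := by
    rw [Nat.cast_sub (by omega), Nat.cast_sub (by omega)]; push_cast; ring
  -- `r ≥ p q - q + 1`
  have hrbig : (p : ℤ) * q - q < r := by
    have hw' : (w : ℤ) < q := by exact_mod_cast hwq
    have hqr' : (q : ℤ) < r := by exact_mod_cast hqr
    have hw0 : (0 : ℤ) ≤ w := by positivity
    have hN : (0 : ℤ) < (p : ℤ) * q := by
      have := H.p0
      have := H.q0
      positivity
    rcases hc with hc | hc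
    · obtain ⟨m, hm⟩ := hc.symm.dvd
      have hm1 : 0 < m := by
        by_contra hcon
        push Not at hcon
        have := mul_nonpos_of_nonneg_of_nonpos hN.le hcon
        linarith
      have : (p : ℤ) * q * 1 ≤ (p : ℤ) * q * m := mul_le_mul_of_nonneg_left hm1 hN.le
      linarith
    · obtain ⟨m, hm⟩ := hc.symm.dvd
      have hm1 : 0 < m := by
        by_contra hcon
        push Not at hcon
        have := mul_nonpos_of_nonneg_of_nonpos hN.le hcon
        linarith
      have : (p : ℤ) * q * 1 ≤ (p : ℤ) * q * m := mul_le_mul_of_nonneg_left hm1 hN.le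
      linarith
  -- choose the right `ρ`
  obtain ⟨ρ', hρ', hW'⟩ : ∃ ρ' : ℕ, (ρ' : ℤ) ≤ (p : ℤ) * q - p - q ∧
      fW p q (((l + 1) * r : ℕ) : ℤ) ρ' - fW p q ((l * r : ℕ) : ℤ) ρ' = 1 := by
    rcases hc with hc | hc
    · refine ⟨ρ, hρ, ?_⟩
      have e1 : fW p q (((l + 1) * r : ℕ) : ℤ) ρ = fW p q (((l + 1) * w : ℕ) : ℤ) ρ := by
        apply fW_congr
        push_cast
        exact hc.mul_left _
      have e2 : fW p q ((l * r : ℕ) : ℤ) ρ = fW p q ((l * w : ℕ) : ℤ) ρ := by
        apply fW_congr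
        push_cast
        exact hc.mul_left _
      rw [e1, e2, hW]
    · have hρN : ρ ≤ p * q - p - q := by
        rw [← hcastN] at hρ; exact_mod_cast hρ
      refine ⟨p * q - p - q - ρ, ?_, ?_⟩
      · rw [← hcastN]; exact_mod_cast Nat.sub_le _ _
      · have e1 : fW p q (((l + 1) * r : ℕ) : ℤ) (p * q - p - q - ρ)
            = fW p q (((l + 1) * w : ℕ) : ℤ) ρ := by
          rw [← fW_reflect H.cop H.p0 H.hpq H.big (((l + 1) * w : ℕ) : ℤ)
            (ρ := p * q - p - q - ρ) (ρ' := ρ) (by omega)]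
          apply fW_congr
          push_cast
          have := hc.mul_left ((l : ℤ) + 1)
          rw [mul_neg] at this
          exact this
        have e2 : fW p q ((l * r : ℕ) : ℤ) (p * q - p - q - ρ)
            = fW p q ((l * w : ℕ) : ℤ) ρ := by
          rw [← fW_reflect H.cop H.p0 H.hpq H.big ((l * w : ℕ) : ℤ)
            (ρ := p * q - p - q - ρ) (ρ' := ρ) (by omega)]
          apply fW_congr
          push_cast
          have := hc.mul_left (l : ℤ)
          rw [mul_neg] at this
          exact this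
        rw [e1, e2, hW]
  have hρr : ρ' < r := by
    have : (ρ' : ℤ) < r := by
      have : (0 : ℤ) ≤ p := by positivity
      linarith
    exact_mod_cast this
  have hlr : (l + 1) * r = l * r + r := by ring
  have hp3 := H.h3
  have hD := fD_case1 H (t := (l + 1) * r - ρ' - 1) (l := l) (ρ := ρ') hl (by omega) hρr
    (by
      have : (1 : ℤ) ≤ p := by exact_mod_cast (by omega : 1 ≤ p)
      linarith) (by omega)
  rw [hW'] at hD
  have hle : (l + 1) * r ≤ p * r := Nat.mul_le_mul_right r hlp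
  have := hF ((l + 1) * r - ρ' - 1) (p * r) (by omega) (by
    have h1 := H.q0
    have h2 := H.p0
    have h3 := H.r0
    have h4 : p * 1 * r < p * q * r := by
      apply Nat.mul_lt_mul_of_pos_right _ h3
      apply Nat.mul_lt_mul_of_pos_left _ h2
      omega
    simpa using h4)
  rw [hD] at this
  norm_num at this

lemma step4 (H : Hyp p q r) (hF : FlatD p q r) (hpo : Odd p) (hqo : Odd q) (hro : Odd r)
    (hc : (r : ℤ) ≡ 1 [ZMOD ((p : ℤ) * q)] ∨ (r : ℤ) ≡ -1 [ZMOD ((p : ℤ) * q)]) :
    p ∣ q + 1 := by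
  by_contra hq1
  have hpq1 : ¬ p ∣ q := by
    intro h
    have h6 := (Nat.prime_dvd_prime_iff_eq H.hp H.hq).1 h
    have := H.hpq
    omega
  obtain ⟨y, ρ, hρ, hQ⟩ := comb_a H.cop H.h3 hpo hqo H.hpq hpq1 hq1
  have hbig := H.big
  have hbigZ := H.bigZ
  have hqr := H.hqr
  have hpq := H.hpq
  have hp0 := H.p0
  have hq0 := H.q0
  have hr0 := H.r0
  have hcastN : ((p * q - p - q : ℕ) : ℤ) = (p : ℤ) * q - p - q := by
    rw [Nat.cast_sub (by omega), Nat.cast_sub (by omega)]; push_cast; ring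
  have hN : (0 : ℤ) < (p : ℤ) * q := by positivity
  -- `r ≥ 2 p q - 1`
  have hrbig : 2 * ((p : ℤ) * q) - 1 ≤ r := by
    have hodd : Odd ((p : ℤ) * q) := by
      have := hpo.mul hqo
      exact_mod_cast (Int.odd_coe_nat (p * q)).2 this
    have hrodd : Odd (r : ℤ) := (Int.odd_coe_nat r).2 hro
    have hr1 : (1 : ℤ) < r := by exact_mod_cast H.hr.one_lt
    rcases hc with hc | hc
    · obtain ⟨m, hm⟩ := hc.symm.dvd
      have hm1 : 0 < m := by
        by_contra hcon
        push Not at hcon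
        have := mul_nonpos_of_nonneg_of_nonpos hN.le hcon
        linarith
      have hm2 : m ≠ 1 := by
        rintro rfl
        rw [mul_one] at hm
        have h1 : Even ((r : ℤ) - 1) := hrodd.sub_odd (by decide)
        rw [hm] at h1
        exact (Int.not_even_iff_odd.2 hodd) h1
      have h3 : (2 : ℤ) ≤ m := by omega
      have : (p : ℤ) * q * 2 ≤ (p : ℤ) * q * m := mul_le_mul_of_nonneg_left h3 hN.le
      linarith
    · obtain ⟨m, hm⟩ := hc.symm.dvd
      have hm1 : 0 < m := by
        by_contra hcon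
        push Not at hcon
        have := mul_nonpos_of_nonneg_of_nonpos hN.le hcon
        linarith
      have hm2 : m ≠ 1 := by
        rintro rfl
        rw [mul_one] at hm
        have h1 : Even ((r : ℤ) - -1) := hrodd.sub_odd (by decide)
        rw [hm] at h1
        exact (Int.not_even_iff_odd.2 hodd) h1
      have h3 : (2 : ℤ) ≤ m := by omega
      have : (p : ℤ) * q * 2 ≤ (p : ℤ) * q * m := mul_le_mul_of_nonneg_left h3 hN.le
      linarith
  -- a general conclusion
  have key : ∀ (z : ℤ) (σ : ℕ), (σ : ℤ) ≤ (p : ℤ) * q - p - q →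
      |fW p q z σ - fW p q (z - r) σ + fW p q (z - r * p) σ| ≤ 1 := by
    intro z σ hσ
    set c' : ℤ := (z - p * r - σ - 1) % ((p : ℤ) * q) with hc'
    have hc0 : 0 ≤ c' := Int.emod_nonneg _ hN.ne'
    have hc1 : c' < (p : ℤ) * q := Int.emod_lt_of_pos _ hN
    set c : ℕ := σ + 1 + c'.toNat with hcdef
    have hccast : (c : ℤ) = σ + 1 + c' := by
      rw [hcdef]; push_cast; rw [Int.toNat_of_nonneg hc0]
    have hclt : c < r := by
      have : (c : ℤ) < r := by
        rw [hccast]
        have : (3 : ℤ) ≤ p := by exact_mod_cast H.h3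
        have : (0 : ℤ) ≤ q := by positivity
        linarith
      exact_mod_cast this
    have hσc : σ < c := by omega
    have hD := fD_case2 H (t := p * r + c - σ - 1) hclt hσc (by omega)
    have hY : ((p * r + c : ℕ) : ℤ) ≡ z [ZMOD ((p : ℤ) * q)] := by
      have e1 : ((p * r + c : ℕ) : ℤ) = (p * r + σ + 1) + c' := by
        push_cast; rw [hccast]; ring
      have e2 : z = (p * r + σ + 1) + (z - p * r - σ - 1) := by ring
      rw [e1]
      conv_rhs => rw [e2]
      exact (Int.mod_modEq _ _).add_left _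
    rw [fW_congr hY, fW_congr (hY.sub_right (r : ℤ)), fW_congr (hY.sub_right ((r : ℤ) * p))] at hD
    have hlt : p * r + c < p * q * r := by
      have h3 := H.h3
      have h1 : (p + 1) * r ≤ p * q * r := Nat.mul_le_mul_right r (by omega)
      have h2 : (p + 1) * r = p * r + r := by ring
      omega
    have := hF (p * r + c - σ - 1) (p * r + c) (by omega) hlt
    rw [hD, abs_neg] at this
    exact this
  rcases hc with hc | hc
  · have h1 := key y ρ hρ
    have e1 : fW p q (y - r) ρ = fW p q (y - 1) ρ := fW_congr (hc.sub_left y) ρ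
    have e2 : fW p q (y - r * p) ρ = fW p q (y - p) ρ := by
      apply fW_congr
      have := (hc.mul_right (p : ℤ)).sub_left y
      rw [one_mul] at this
      exact this
    rw [e1, e2] at h1
    unfold fQ at hQ
    rw [hQ] at h1
    norm_num at h1
  · have hρN : ρ ≤ p * q - p - q := by
      rw [← hcastN] at hρ; exact_mod_cast hρ
    have h1 := key (-y) (p * q - p - q - ρ) (by
      rw [← hcastN]; exact_mod_cast Nat.sub_le _ _)
    have e0 : fW p q (-y) (p * q - p - q - ρ) = fW p q y ρ :=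
      fW_reflect H.cop H.p0 H.hpq H.big y (by omega)
    have e1 : fW p q (-y - r) (p * q - p - q - ρ) = fW p q (y - 1) ρ := by
      rw [← fW_reflect H.cop H.p0 H.hpq H.big (y - 1)
        (ρ := p * q - p - q - ρ) (ρ' := ρ) (by omega)]
      apply fW_congr
      have := hc.sub_left (-y)
      have e : -(y - 1) = -y - -1 := by ring
      rw [e]
      exact this
    have e2 : fW p q (-y - r * p) (p * q - p - q - ρ) = fW p q (y - p) ρ := by
      rw [← fW_reflect H.cop H.p0 H.hpq H.big (y - p)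
        (ρ := p * q - p - q - ρ) (ρ' := ρ) (by omega)]
      apply fW_congr
      have := (hc.mul_right (p : ℤ)).sub_left (-y)
      have e : -(y - (p : ℤ)) = -y - -1 * (p : ℤ) := by ring
      rw [e]
      exact this
    rw [e0, e1, e2] at h1
    unfold fQ at hQ
    rw [hQ] at h1
    norm_num at h1

/-- The first part: flatness and `s ≡ ± 1` modulo `pqr` force the other two congruences. -/
theorem part1 (H : Hyp p q r) (hF : FlatD p q r) (hpo : Odd p) (hqo : Odd q) (hro : Odd r) :
    p ∣ q + 1 ∧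
      ((r : ℤ) ≡ 1 [ZMOD ((p : ℤ) * q)] ∨ (r : ℤ) ≡ -1 [ZMOD ((p : ℤ) * q)]) := by
  have hp0 := H.p0
  have hq0 := H.q0
  have hr0 := H.r0
  have hbig := H.big
  have hN : 0 < p * q := by positivity
  set κ : ℕ := r % (p * q) with hκ
  have hκlt : κ < p * q := Nat.mod_lt _ hN
  have hκle : κ ≤ r := Nat.mod_le _ _
  have hc : (r : ℤ) ≡ (κ : ℤ) [ZMOD ((p : ℤ) * q)] := by
    rw [hκ]
    push_cast
    exact (Int.mod_modEq _ _).symm
  have hqκ : ¬ q ∣ κ := by
    intro h
    have h5 : q ∣ r := (Nat.dvd_mod_iff (dvd_mul_left q p)).1 h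
    have h6 := (Nat.prime_dvd_prime_iff_eq H.hq H.hr).1 h5
    have := H.hqr
    omega
  have hκ0 : κ ≠ 0 := by
    intro h
    apply hqκ
    rw [h]; exact dvd_zero q
  have hr1 : (r : ℤ) ≡ 1 [ZMOD ((p : ℤ) * q)] ∨ (r : ℤ) ≡ -1 [ZMOD ((p : ℤ) * q)] := by
    rcases Nat.lt_trichotomy κ q with h | h | h
    · -- `κ < q`
      rcases Nat.lt_or_ge κ 2 with h2 | h2
      · left
        have : κ = 1 := by omega
        rw [this] at hc
        exact_mod_cast hc
      · exact (step3 H hF h2 h (Or.inl hc)).elim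
    · exact absurd ⟨1, by rw [h]; ring⟩ hqκ
    · rcases Nat.lt_trichotomy κ (p * q - q) with h' | h' | h'
      · exfalso
        refine step2 H hF hκle hc h ?_
        have : ((p * q - q : ℕ) : ℤ) = (p : ℤ) * q - q := by
          rw [Nat.cast_sub (by omega)]; push_cast; ring
        rw [← this]
        exact_mod_cast h'
      · exfalso
        apply hqκ
        rw [h']
        exact Nat.dvd_sub (dvd_mul_left q p) (dvd_refl q)
      · -- `κ = p q - w`
        obtain ⟨w, hw⟩ : ∃ w, κ + w = p * q := ⟨p * q - κ, by omega⟩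
        have hcw : (r : ℤ) ≡ -(w : ℤ) [ZMOD ((p : ℤ) * q)] := by
          refine hc.trans ?_
          have e : (κ : ℤ) = -(w : ℤ) + (p : ℤ) * q := by
            have : (κ : ℤ) + w = (p : ℤ) * q := by exact_mod_cast hw
            linarith
          rw [e]
          unfold Int.ModEq
          rw [Int.add_emod_right]
        rcases Nat.lt_or_ge w 2 with h2 | h2
        · right
          have : w = 1 := by omega
          rw [this] at hcw
          exact_mod_cast hcw
        · exact (step3 H hF h2 (by omega) (Or.inr hcw)).elim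
  exact ⟨step4 H hF hpo hqo hro hr1, hr1⟩

end Pool.Agent.MP4c27ed
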