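import Pool.Agent.Lib_MP_4c27ed_nt.Main

/-!
# Flat `Φ_{pqrs}` with `s ≡ ± 1` modulo `qr`
-/

set_option autoImplicit false
set_option maxHeartbeats 1000000

namespace Pool.Agent.MP4c27ed

open Finset

variable {p q r s : ℕ}

/-- The values of `1/Φ_{pqr}` in blocks, for `r > (p-1)(q-1)`. -/
lemma fcZ_block (H : Hyp p q r) (hr : (p : ℤ) * q - p - q + 1 < r) {u : ℤ} (hu0 : 0 ≤ u)
    (hur : u < r) (j : ℤ) : fcZ p q r (u + r * j) = chi p q j * fa p q u := by
  have hN : (0 : ℤ) < (p : ℤ) * q := by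
    have := H.p0
    have := H.q0
    positivity
  have hr0 := H.r0
  set N : ℤ := (p : ℤ) * q with hNdef
  obtain ⟨j', hj'⟩ : ∃ j' : ℕ, (j' : ℤ) = j % N :=
    ⟨(j % N).toNat, Int.toNat_of_nonneg (Int.emod_nonneg _ hN.ne')⟩
  obtain ⟨v, hv⟩ : ∃ v : ℕ, (v : ℤ) = u := ⟨u.toNat, Int.toNat_of_nonneg hu0⟩
  have hvr : v < r := by rw [← hv] at hur; exact_mod_cast hur
  have e1 : fcZ p q r (u + r * j) = fcZ p q r ((v + r * j' : ℕ) : ℤ) := by
    apply fcZ_congr
    push_cast
    rw [hv, hj']
    have h1 := Int.mul_ediv_add_emod j N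
    have h2 : u + r * j = u + r * (j % N) + (p : ℤ) * q * r * (j / N) := by
      conv_lhs => rw [← h1]
      rw [hNdef]; ring
    rw [h2]
    unfold Int.ModEq
    rw [Int.add_mul_emod_self_left]
  have e2 : chi p q j = chi p q j' := by
    apply chi_congr
    rw [hj']
    exact (Int.mod_modEq _ _).symm
  rw [e1, e2, fcZ_natCast H, ← hv]
  unfold fc
  have hdiv : (v + r * j') / r = j' := by
    rw [Nat.add_mul_div_left _ _ hr0, Nat.div_eq_of_lt hvr, zero_add]
  rw [hdiv, Finset.sum_range_succ, Finset.sum_eq_zero, zero_add]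
  · congr 2
    push_cast; ring
  · intro i hi
    rw [Finset.mem_range] at hi
    rw [fa_large H.cop H.p0, mul_zero]
    have h3 : (i : ℤ) + 1 ≤ j' := by exact_mod_cast hi
    have h4 : (r : ℤ) * (i + 1) ≤ r * j' := mul_le_mul_of_nonneg_left h3 (by positivity)
    have h5 : (0 : ℤ) ≤ v := by positivity
    push_cast
    linarith

/-- The values of `chi` at the multiples of `q`. -/
lemma chi_mul_q (H : Hyp p q r) (m : ℤ) :
    chi p q (q * m) = (if (p : ℤ) ∣ m then 1 else 0) - (if (p : ℤ) ∣ m - 1 then 1 else 0) := by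
  have hp' : (3 : ℤ) ≤ p := by exact_mod_cast H.h3
  have hq' : (p : ℤ) < q := by exact_mod_cast H.hpq
  have hm := Int.mul_ediv_add_emod m p
  set a := m % (p : ℤ) with ha
  set b := m / (p : ℤ) with hb
  have ha0 : 0 ≤ a := Int.emod_nonneg _ (by linarith)
  have hap : a < p := Int.emod_lt_of_pos _ (by linarith)
  have e1 : chi p q (q * m) = chi p q (q * a) := by
    apply chi_congr
    have : (q : ℤ) * m = q * a + (p : ℤ) * q * b := by rw [← hm]; ring
    rw [this]
    unfold Int.ModEq
    rw [Int.add_mul_emod_self_left]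
  have hqa0 : (0 : ℤ) ≤ q * a := mul_nonneg (by linarith) ha0
  have hqa1 : (q : ℤ) * a < (p : ℤ) * q := by
    rw [mul_comm (p : ℤ) q]
    exact (mul_lt_mul_iff_right₀ (by linarith)).2 hap
  rw [e1, chi_of_lt hqa0 hqa1]
  by_cases h0 : a = 0
  · have hd : (p : ℤ) ∣ m := Int.dvd_of_emod_eq_zero h0
    have hd1 : ¬ (p : ℤ) ∣ m - 1 := by
      intro h
      have := dvd_sub hd h
      have e : m - (m - 1) = 1 := by ring
      rw [e] at this
      have := Int.le_of_dvd (by norm_num) this
      linarith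
    rw [if_pos hd, if_neg hd1, h0, mul_zero, if_pos (by linarith)]
    norm_num
  · have hd : ¬ (p : ℤ) ∣ m := fun h => h0 (Int.emod_eq_zero_of_dvd h)
    rw [if_neg hd]
    by_cases h1 : a = 1
    · have hd1 : (p : ℤ) ∣ m - 1 := ⟨b, by rw [← h1]; linarith⟩
      rw [if_pos hd1, h1, mul_one, if_neg (by linarith), if_pos ⟨le_refl _, by linarith⟩]
      norm_num
    · have hd1 : ¬ (p : ℤ) ∣ m - 1 := by
        rintro ⟨c, hc⟩
        have h2 : a = 1 := by
          have h3 : (a - 1) = p * (c - b) := by linarith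
          have h4 : (p : ℤ) ∣ a - 1 := ⟨c - b, h3⟩
          have h5 : 0 < a - 1 ∨ a - 1 = 0 := by omega
          rcases h5 with h5 | h5
          · have := Int.le_of_dvd h5 h4
            linarith
          · linarith
        exact h1 h2
      have ha2 : 2 ≤ a := by omega
      have hq2 : (q : ℤ) * 2 ≤ q * a := mul_le_mul_of_nonneg_left ha2 (by linarith)
      rw [if_neg hd1, if_neg (by linarith), if_neg (by rintro ⟨_, h⟩; linarith)]
      norm_num

/-- The second part. -/
theorem part2 (H : Hyp p q r) (hr : (p : ℤ) * q - p - q + 1 < r)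
    (hs : s.Prime) (hrs : r < s) (hqo : Odd q) (hro : Odd r)
    (hflat : ∀ k : ℕ, |(Polynomial.cyclotomic (p * q * r * s) ℤ).coeff k| ≤ 1)
    {ε : ℤ} (hε : ε = 1 ∨ ε = -1) {e : ℕ} (hse : (s : ℤ) = ε + e * (q * r)) :
    p ∣ e := by
  by_contra hpe
  have hp3 := H.h3
  have hpq := H.hpq
  have hqr := H.hqr
  have hp0 := H.p0
  have hq0 := H.q0
  have hr0 := H.r0
  have hs0 := hs.pos
  have hpp := H.hp
  have hsn : ¬ s ∣ p * q * r := by
    intro h
    rcases (Nat.Prime.dvd_mul hs).1 h with h1 | h1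
    · rcases (Nat.Prime.dvd_mul hs).1 h1 with h2 | h2
      · have := Nat.le_of_dvd hp0 h2; omega
      · have := Nat.le_of_dvd hq0 h2; omega
    · have := Nat.le_of_dvd hr0 h1; omega
  -- `e ≥ 2`
  have hqrpos : (0 : ℤ) < (q : ℤ) * r := by positivity
  have he2 : 2 ≤ e := by
    have hs3 : (1 : ℤ) < s := by exact_mod_cast hs.one_lt
    have he0 : e ≠ 0 := by
      rintro rfl
      rcases hε with h | h <;> rw [h] at hse <;> push_cast at hse <;> linarith
    have he1 : e ≠ 1 := by
      rintro rfl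
      have hodd : Odd ((q : ℤ) * r) := by
        have := hqo.mul hro
        exact_mod_cast (Int.odd_coe_nat (q * r)).2 this
      have hsodd : Odd (s : ℤ) := by
        have : s ≠ 2 := by omega
        exact (Int.odd_coe_nat s).2 (hs.odd_of_ne_two this)
      have hεo : Odd ε := by rcases hε with h | h <;> rw [h] <;> decide
      have h1 : Even ((s : ℤ) - ε) := hsodd.sub_odd hεo
      have h2 : (s : ℤ) - ε = (q : ℤ) * r := by rw [hse]; push_cast; ring
      rw [h2] at h1
      exact (Int.not_even_iff_odd.2 hodd) h1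
    omega
  have hsbig : 2 * ((q : ℤ) * r) - 1 ≤ s := by
    have h1 : (2 : ℤ) ≤ e := by exact_mod_cast he2
    have h2 : 2 * ((q : ℤ) * r) ≤ e * (q * r) := mul_le_mul_of_nonneg_right h1 hqrpos.le
    have h3 : -1 ≤ ε := by rcases hε with h | h <;> rw [h] <;> norm_num
    linarith
  -- the inverse of `e`
  have hcop : Nat.Coprime e p := ((Nat.Prime.coprime_iff_not_dvd hpp).2 hpe).symm
  obtain ⟨v, hvp, hv⟩ := Nat.exists_mul_mod_eq_one_of_coprime hcop (show 1 < p by omega)
  have hv1 : 1 ≤ v := by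
    rcases Nat.eq_zero_or_pos v with h | h
    · exfalso; rw [h, mul_zero, Nat.zero_mod] at hv; exact absurd hv (by norm_num)
    · exact h
  have hvd : (p : ℤ) ∣ (e : ℤ) * v - 1 := by
    have h1 := Nat.div_add_mod (e * v) p
    rw [hv] at h1
    refine ⟨((e * v / p : ℕ) : ℤ), ?_⟩
    have h2 : ((p * (e * v / p) + 1 : ℕ) : ℤ) = ((e * v : ℕ) : ℤ) := by rw [h1]
    push_cast at h2 ⊢
    linarith
  have hpe' : ¬ (p : ℤ) ∣ (e : ℤ) := fun h => hpe (by exact_mod_cast h)
  have hpprime : Prime (p : ℤ) := Nat.prime_iff_prime_int.1 hpp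
  -- divisibility helper
  have hdiv0 : ∀ h : ℤ, 0 < h → h < p → ¬ (p : ℤ) ∣ h * e := by
    intro h h1 h2 h3
    rcases hpprime.dvd_or_dvd h3 with h4 | h4
    · have := Int.le_of_dvd h1 h4
      linarith
    · exact hpe' h4
  have hdivv : ∀ h : ℤ, (p : ℤ) ∣ h * e - 1 → (p : ℤ) ∣ h - v := by
    intro h h1
    have h2 : (p : ℤ) ∣ (h - v) * e := by
      have := dvd_sub h1 hvd
      have e3 : h * e - 1 - ((e : ℤ) * v - 1) = (h - v) * e := by ring
      rwa [e3] at this
    rcases hpprime.dvd_or_dvd h2 with h4 | h4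
    · exact h4
    · exact absurd h4 hpe'
  -- the general coefficient
  have gen : ∀ (d : ℕ) (y0 : ℕ) (c1 : ℕ), d < p → c1 ≤ 1 →
      (∀ h : ℕ, h ≤ d → 0 ≤ (y0 : ℤ) + h * ε ∧ (y0 : ℤ) + h * ε < r) →
      |∑ h ∈ range (d + 1), fa p q ((y0 : ℤ) + h * ε) *
        chi p q (q * (h * e + c1))| ≤ 1 := by
    intro d y0 c1 hd hc1 hy
    have hy0 : (y0 : ℤ) < r := by have := (hy 0 (Nat.zero_le _)).2; simpa using this
    have hy0' : y0 < r := by exact_mod_cast hy0
    have hylt : y0 + c1 * (q * r) < s := by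
      have h1 : ((y0 + c1 * (q * r) : ℕ) : ℤ) < s := by
        push_cast
        have h2 : (c1 : ℤ) ≤ 1 := by exact_mod_cast hc1
        have h3 : (c1 : ℤ) * (q * r) ≤ 1 * (q * r) := mul_le_mul_of_nonneg_right h2 hqrpos.le
        have h4 : (r : ℤ) + 1 ≤ q * r := by
          have h5 : (2 : ℤ) ≤ q := by exact_mod_cast (by omega : 2 ≤ q)
          have h6 : (1 : ℤ) ≤ r := by exact_mod_cast hr0
          nlinarith
        linarith
      exact_mod_cast h1
    have h1 := hflat (d * s + (y0 + c1 * (q * r)))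
    have hk : (d * s + (y0 + c1 * (q * r))) / s = d := by
      rw [Nat.add_comm, Nat.add_mul_div_right _ _ hs0, Nat.div_eq_of_lt hylt, zero_add]
    rw [coeff_pqrs H hs hsn, hk, ← Finset.sum_range_reflect] at h1
    have h2 : ∑ j ∈ range (d + 1), fan p q r (d + 1 - 1 - j) *
        PowerSeries.coeff (d * s + (y0 + c1 * (q * r)) - s * (d + 1 - 1 - j))
          (serC p q r H.r0.ne')
        = ∑ h ∈ range (d + 1), fa p q ((y0 : ℤ) + h * ε) * chi p q (q * (h * e + c1)) := by
      apply Finset.sum_congr rfl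
      intro h hh
      rw [Finset.mem_range] at hh
      have hfan : fan p q r (d + 1 - 1 - h) = 1 := by
        rw [fan_eq H, Nat.div_eq_of_lt (by omega), Finset.sum_range_one, Nat.cast_zero,
          fa_zero_arg, mul_zero, sub_zero, one_mul]
        exact chi_one_of_lt H (by omega)
      rw [hfan, one_mul, coeff_serC, ← fcZ_natCast H]
      have e1 : ((d * s + (y0 + c1 * (q * r)) - s * (d + 1 - 1 - h) : ℕ) : ℤ)
          = ((y0 : ℤ) + h * ε) + r * (q * (h * e + c1)) := by
        have e2 : d + 1 - 1 - h = d - h := by omega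
        have hle : s * (d - h) ≤ d * s := by
          rw [mul_comm d s]; exact Nat.mul_le_mul_left s (by omega)
        rw [e2, Nat.cast_sub (by omega), Nat.cast_add, Nat.cast_mul, Nat.cast_mul,
          Nat.cast_sub (by omega), Nat.cast_add]
        push_cast
        have e3 : (d : ℤ) * s + (y0 + c1 * (q * r)) - s * (d - h)
            = y0 + c1 * (q * r) + h * s := by ring
        rw [e3, hse]; ring
      rw [e1, fcZ_block H hr (hy h (by omega)).1 (hy h (by omega)).2]
      ring
    rw [h2] at h1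
    exact h1
  -- conclusion for a given `d`
  have fin : ∀ (d c1 : ℕ), 1 ≤ d → d < p → c1 ≤ 1 →
      (∀ h : ℕ, 0 < h → h < d → chi p q (q * (h * e + c1)) = 0) →
      (chi p q (q * c1) * chi p q (q * (d * e + c1)) = -1) → False := by
    intro d c1 hd1 hdp hc1 hmid hends
    obtain ⟨u, hu1, hu2⟩ := comb_e H.cop H.h3 H.hpq hd1 hdp
    have hudlt : (u : ℤ) + d < r := by
      by_contra hcon
      push Not at hcon
      rw [fa_large H.cop H.p0 (by linarith)] at hu2
      norm_num at hu2
    have hd0 : (0 : ℤ) ≤ d := by positivity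
    have hu0 : (0 : ℤ) ≤ u := by positivity
    obtain ⟨y0, hy0, hprod⟩ : ∃ y0 : ℕ, (∀ h : ℕ, h ≤ d → 0 ≤ (y0 : ℤ) + h * ε ∧
        (y0 : ℤ) + h * ε < r) ∧ (fa p q (y0 : ℤ) = - fa p q ((y0 : ℤ) + d * ε)) ∧
        |fa p q (y0 : ℤ)| = 1 := by
      rcases hε with h | h
      · subst h
        refine ⟨u, ?_, ?_, ?_⟩
        · intro h hh
          have h1 : (h : ℤ) ≤ d := by exact_mod_cast hh
          have h2 : (0 : ℤ) ≤ h := by positivity
          constructor <;> linarith
        · rw [mul_one, hu1, hu2]; norm_num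
        · rw [hu1]; norm_num
      · subst h
        refine ⟨u + d, ?_, ?_, ?_⟩
        · intro h hh
          have h1 : (h : ℤ) ≤ d := by exact_mod_cast hh
          have h2 : (0 : ℤ) ≤ h := by positivity
          push_cast
          constructor <;> linarith
        · have e1 : ((u + d : ℕ) : ℤ) + (d : ℤ) * (-1) = u := by push_cast; ring
          rw [e1, hu1]
          push_cast
          rw [hu2]
        · push_cast
          rw [hu2]; norm_num
    have h1 := gen d y0 c1 hdp hc1 hy0
    obtain ⟨d', rfl⟩ : ∃ d', d = d' + 1 := ⟨d - 1, by omega⟩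
    rw [Finset.sum_range_succ, Finset.sum_range_succ', Finset.sum_eq_zero] at h1
    · obtain ⟨hp1, hp2⟩ := hprod
      have e0 : ((0 : ℕ) : ℤ) * (e : ℤ) + c1 = c1 := by push_cast; ring
      have e0' : (y0 : ℤ) + ((0 : ℕ) : ℤ) * ε = y0 := by push_cast; ring
      rw [zero_add, e0, e0', hp1] at h1
      have hsq : chi p q (q * (c1 : ℤ)) = 1 ∧ chi p q (q * (((d' + 1 : ℕ) : ℤ) * e + c1)) = -1
          ∨ chi p q (q * (c1 : ℤ)) = -1 ∧ chi p q (q * (((d' + 1 : ℕ) : ℤ) * e + c1)) = 1 := by
        rcases Int.mul_eq_neg_one_iff_eq_one_or_neg_one.1 hends with h | h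
        · left; exact h
        · right; exact h
      rw [hp1, abs_neg] at hp2
      rcases hsq with ⟨h2, h3⟩ | ⟨h2, h3⟩
      · rw [h2, h3] at h1
        have e5 : -fa p q ((y0 : ℤ) + ((d' + 1 : ℕ) : ℤ) * ε) * 1 +
          fa p q ((y0 : ℤ) + ((d' + 1 : ℕ) : ℤ) * ε) * -1
          = (-2) * fa p q ((y0 : ℤ) + ((d' + 1 : ℕ) : ℤ) * ε) := by ring
        rw [e5, abs_mul, hp2] at h1
        norm_num at h1
      · rw [h2, h3] at h1
        have e5 : -fa p q ((y0 : ℤ) + ((d' + 1 : ℕ) : ℤ) * ε) * -1 +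
          fa p q ((y0 : ℤ) + ((d' + 1 : ℕ) : ℤ) * ε) * 1
          = 2 * fa p q ((y0 : ℤ) + ((d' + 1 : ℕ) : ℤ) * ε) := by ring
        rw [e5, abs_mul, hp2] at h1
        norm_num at h1
    · intro h hh
      rw [Finset.mem_range] at hh
      rw [hmid (h + 1) (by omega) (by omega), mul_zero]
  have hp3' : (3 : ℤ) ≤ p := by exact_mod_cast hp3
  have hnd1 : ¬ (p : ℤ) ∣ 1 := by
    intro h
    have := Int.le_of_dvd (by norm_num) h
    linarith
  rcases Nat.lt_or_ge v (p - v) with hc | hc
  · -- `d = v`, `c1 = 0`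
    apply fin v 0 hv1 hvp (by norm_num)
    · intro h h1 h2
      rw [Nat.cast_zero, add_zero, chi_mul_q H, if_neg, if_neg]
      · norm_num
      · intro h3
        have h4 := hdivv h h3
        have h5 : (p : ℤ) ∣ (v : ℤ) - h := by
          have := (dvd_neg).2 h4
          have e : -((h : ℤ) - v) = v - h := by ring
          rwa [e] at this
        have h6 := Int.le_of_dvd (by
          have : (h : ℤ) < v := by exact_mod_cast h2
          linarith) h5
        have h7 : (v : ℤ) < p := by exact_mod_cast hvp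
        have h8 : (0 : ℤ) < h := by exact_mod_cast h1
        linarith
      · exact hdiv0 h (by exact_mod_cast h1) (by
          have : (h : ℤ) < v := by exact_mod_cast h2
          have h7 : (v : ℤ) < p := by exact_mod_cast hvp
          linarith)
    · rw [Nat.cast_zero, add_zero, mul_zero, chi_mul_q H, if_neg, if_pos]
      · have : chi p q 0 = 1 := by
          have := chi_one_of_lt H (j := 0) H.p0
          simpa using this
        rw [this]; norm_num
      · have e1 : (v : ℤ) * e - 1 = (e : ℤ) * v - 1 := by ring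
        rw [e1]; exact hvd
      · exact hdiv0 v (by exact_mod_cast hv1) (by exact_mod_cast hvp)
  · -- `d = p - v`, `c1 = 1`
    have hpv : ((p - v : ℕ) : ℤ) = (p : ℤ) - v := by omega
    apply fin (p - v) 1 (by omega) (by omega) (le_refl _)
    · intro h h1 h2
      have h1' : (0 : ℤ) < h := by exact_mod_cast h1
      have h2' : (h : ℤ) < (p : ℤ) - v := by rw [← hpv]; exact_mod_cast h2
      rw [Nat.cast_one, chi_mul_q H, if_neg, if_neg]
      · norm_num
      · rw [add_sub_cancel_right]
        have hv' : (0 : ℤ) < v := by exact_mod_cast hv1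
        exact hdiv0 h h1' (by linarith)
      · intro h3
        have h4 : (p : ℤ) ∣ (-(h : ℤ)) * e - 1 := by
          have := (dvd_neg).2 h3
          have e1 : -((h : ℤ) * e + 1) = (-(h : ℤ)) * e - 1 := by ring
          rwa [e1] at this
        have h5 := hdivv _ h4
        have h6 : (p : ℤ) ∣ (h : ℤ) + v := by
          have := (dvd_neg).2 h5
          have e1 : -(-(h : ℤ) - v) = h + v := by ring
          rwa [e1] at this
        have hv' : (0 : ℤ) < v := by exact_mod_cast hv1
        have := Int.le_of_dvd (by linarith) h6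
        linarith
    · rw [Nat.cast_one, chi_mul_q H, chi_mul_q H, if_neg hnd1, if_pos, if_pos, if_neg]
      · norm_num
      · rw [add_sub_cancel_right]
        exact hdiv0 _ (by rw [hpv]; have : (v : ℤ) < p := by exact_mod_cast hvp
                          linarith) (by
          rw [hpv]
          have hv' : (0 : ℤ) < v := by exact_mod_cast hv1
          linarith)
      · rw [hpv]
        have h1 : ((p : ℤ) - v) * e + 1 = p * e - (e * v - 1) := by ring
        rw [h1]
        exact dvd_sub (dvd_mul_right _ _) hvd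
      · norm_num

end Pool.Agent.MP4c27ed
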