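import Pool.Agent.Lib_MP_4c27ed_nt.Basic

/-!
# Power series identities for `Φ_{pq}`, `Φ_{pqr}` and `Φ_{pqrs}`
-/

set_option autoImplicit false

namespace Pool.Agent.MP4c27ed

open Finset

variable {p q : ℕ}

/-- The power series of `fa`. -/
noncomputable def serP (p q : ℕ) : PowerSeries ℤ := PowerSeries.mk fun j => fa p q j

/-- The power series of `chi`. -/
noncomputable def serX (p q : ℕ) : PowerSeries ℤ := PowerSeries.mk fun j => chi p q j

lemma coeff_one_sub_mul (m n : ℕ) (F : PowerSeries ℤ) :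
    PowerSeries.coeff n ((1 - PowerSeries.X ^ m) * F)
      = PowerSeries.coeff n F - if m ≤ n then PowerSeries.coeff (n - m) F else 0 := by
  rw [sub_mul, one_mul, map_sub, PowerSeries.coeff_X_pow_mul']

lemma one_sub_X_pow_ne {m : ℕ} (hm : 0 < m) : (1 - PowerSeries.X ^ m : PowerSeries ℤ) ≠ 0 := by
  intro h
  have := congrArg (PowerSeries.coeff 0) h
  rw [map_sub, PowerSeries.coeff_X_pow, PowerSeries.coeff_one, if_pos rfl,
    if_neg (by omega), map_zero] at this
  norm_num at this

/-- `(1 - X^p) (1 - X^q) 1_S = 1 - X^{pq}`. -/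
lemma serA_identity (hpq : Nat.Coprime p q) (hp : 0 < p) (hq : 0 < q) :
    (1 - PowerSeries.X ^ q) * ((1 - PowerSeries.X ^ p) *
      (PowerSeries.mk fun j => fA p q j)) = (1 - PowerSeries.X ^ (p * q) : PowerSeries ℤ) := by
  have h1 : ((1 - PowerSeries.X ^ p) * (PowerSeries.mk fun j => fA p q j) : PowerSeries ℤ)
      = ∑ β ∈ range p, (PowerSeries.X ^ q) ^ β := by
    ext n
    rw [coeff_one_sub_mul, PowerSeries.coeff_mk, PowerSeries.coeff_mk, map_sum]
    have h2 : ∀ β ∈ range p, PowerSeries.coeff n ((PowerSeries.X ^ q : PowerSeries ℤ) ^ β)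
        = if n = β * q then 1 else 0 := by
      intro β _
      rw [← pow_mul, PowerSeries.coeff_X_pow, mul_comm]
    rw [Finset.sum_congr rfl h2]
    have h3 := fA_rec hpq hp hq n
    by_cases hn : p ≤ n
    · rw [if_pos hn]
      rw [Nat.cast_sub hn]
      linarith
    · rw [if_neg hn]
      rw [fA_neg (x := (n : ℤ) - p) (by push Not at hn; omega)] at h3
      linarith
  rw [h1, mul_neg_geom_sum, ← pow_mul, mul_comm q p]

/-- `P = (1 - X) 1_S`. -/
lemma serP_eq : serP p q = (1 - PowerSeries.X) * (PowerSeries.mk fun j => fA p q j) := by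
  ext n
  have := coeff_one_sub_mul 1 n (PowerSeries.mk fun j => fA p q j)
  rw [pow_one] at this
  rw [this]
  unfold serP
  rw [PowerSeries.coeff_mk, PowerSeries.coeff_mk, PowerSeries.coeff_mk]
  unfold fa
  by_cases hn : 1 ≤ n
  · rw [if_pos hn, Nat.cast_sub hn]; norm_num
  · rw [if_neg hn]
    have : n = 0 := by omega
    subst this
    rw [fA_neg (x := ((0 : ℕ) : ℤ) - 1) (by norm_num)]

lemma serP_identity (hpq : Nat.Coprime p q) (hp : 0 < p) (hq : 0 < q) :
    (1 - PowerSeries.X ^ q) * ((1 - PowerSeries.X ^ p) * serP p q)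
      = ((1 - PowerSeries.X ^ (p * q)) * (1 - PowerSeries.X) : PowerSeries ℤ) := by
  rw [serP_eq]
  linear_combination (1 - PowerSeries.X) * serA_identity hpq hp hq

/-- The polynomial `(1 + ... + x^{p-1}) (1 - x^q)` as a power series. -/
noncomputable def serT (p q : ℕ) : PowerSeries ℤ :=
  PowerSeries.mk fun u => if u < p then 1 else if q ≤ u ∧ u < q + p then -1 else 0

lemma serT_eq (hbig : p + q ≤ p * q) :
    (1 - PowerSeries.X ^ (p * q)) * serX p q = serT p q := by
  ext n
  rw [coeff_one_sub_mul]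
  unfold serX serT
  rw [PowerSeries.coeff_mk, PowerSeries.coeff_mk, PowerSeries.coeff_mk]
  by_cases hn : p * q ≤ n
  · rw [if_pos hn, Nat.cast_sub hn]
    have e : chi p q ((n : ℤ) - ((p * q : ℕ) : ℤ)) = chi p q n := by
      apply chi_congr
      push_cast
      unfold Int.ModEq
      rw [Int.sub_emod_right]
    rw [e, if_neg (by omega), if_neg (by omega)]
    ring
  · rw [if_neg hn, sub_zero]
    push Not at hn
    rw [chi_of_lt (by positivity) (by exact_mod_cast hn)]
    simp only [Nat.cast_lt, Nat.cast_le]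
    split_ifs <;> first | rfl | (exfalso; omega)

lemma serT_identity (hpq : p < q) (hp : 0 < p) :
    (1 - PowerSeries.X) * serT p q
      = ((1 - PowerSeries.X ^ q) * (1 - PowerSeries.X ^ p) : PowerSeries ℤ) := by
  ext n
  have h1 := coeff_one_sub_mul 1 n (serT p q)
  rw [pow_one] at h1
  rw [h1, coeff_one_sub_mul]
  unfold serT
  rw [PowerSeries.coeff_mk, PowerSeries.coeff_mk, map_sub, map_sub, PowerSeries.coeff_one,
    PowerSeries.coeff_X_pow, PowerSeries.coeff_one, PowerSeries.coeff_X_pow]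
  split_ifs <;> first | rfl | (exfalso; omega)

/-- `P X = 1`. -/
lemma serP_mul_serX (hpq : Nat.Coprime p q) (hp : 0 < p) (hlt : p < q) (hbig : p + q ≤ p * q) :
    serP p q * serX p q = 1 := by
  have h1 := serP_identity hpq hp (lt_trans hp hlt)
  have h2 := serT_eq hbig
  have h3 := serT_identity hlt hp
  have hq : 0 < q := lt_trans hp hlt
  have hne : ((1 - PowerSeries.X ^ q) * (1 - PowerSeries.X ^ p) *
      ((1 - PowerSeries.X ^ (p * q)) * (1 - PowerSeries.X)) : PowerSeries ℤ) ≠ 0 := by
    refine mul_ne_zero (mul_ne_zero (one_sub_X_pow_ne hq) (one_sub_X_pow_ne hp))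
      (mul_ne_zero (one_sub_X_pow_ne (by positivity)) ?_)
    have := one_sub_X_pow_ne (m := 1) one_pos
    rwa [pow_one] at this
  apply mul_left_cancel₀ hne
  rw [mul_one]
  calc (1 - PowerSeries.X ^ q) * (1 - PowerSeries.X ^ p) *
      ((1 - PowerSeries.X ^ (p * q)) * (1 - PowerSeries.X)) * (serP p q * serX p q)
      = ((1 - PowerSeries.X ^ q) * ((1 - PowerSeries.X ^ p) * serP p q)) *
        ((1 - PowerSeries.X) * ((1 - PowerSeries.X ^ (p * q)) * serX p q)) := by ring
    _ = _ := by rw [h1, h2, h3]; ring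

/-- `Φ_{pq}` as a power series is `P`. -/
lemma cyclotomic_eq_serP (hp : p.Prime) (hq : q.Prime) (hlt : p < q) :
    ((Polynomial.cyclotomic (p * q) ℤ : Polynomial ℤ) : PowerSeries ℤ) = serP p q := by
  have hcop : Nat.Coprime p q := (Nat.coprime_primes hp hq).2 hlt.ne
  have h1 := Polynomial.cyclotomic_expand_eq_cyclotomic_mul (p := q) (n := p) hq
    (fun h => by
      have := Nat.le_of_dvd hp.pos h
      omega) ℤ
  have h2 : Polynomial.cyclotomic p ℤ * (Polynomial.X - 1) = Polynomial.X ^ p - 1 :=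
    Polynomial.cyclotomic_prime_mul_X_sub_one (R := ℤ) (p := p) (hn := ⟨hp⟩)
  have h3 : Polynomial.expand ℤ q (Polynomial.cyclotomic p ℤ) * (Polynomial.X ^ q - 1)
      = Polynomial.X ^ (p * q) - 1 := by
    have := congrArg (Polynomial.expand ℤ q) h2
    rw [map_mul, map_sub, map_sub, map_pow, map_one, Polynomial.expand_X, ← pow_mul,
      mul_comm q p] at this
    exact this
  have h4 : (1 - Polynomial.X ^ q) * ((1 - Polynomial.X ^ p) *
      Polynomial.cyclotomic (p * q) ℤ) = ((1 - Polynomial.X ^ (p * q)) *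
      (1 - Polynomial.X) : Polynomial ℤ) := by
    rw [h1] at h3
    linear_combination (Polynomial.cyclotomic (p * q) ℤ * (1 - Polynomial.X ^ q)) * h2 +
      (Polynomial.X - 1) * h3
  have h5 := congrArg (fun f : Polynomial ℤ => (f : PowerSeries ℤ)) h4
  simp only [Polynomial.coe_mul, Polynomial.coe_sub, Polynomial.coe_one, Polynomial.coe_pow,
    Polynomial.coe_X] at h5
  have h6 := serP_identity hcop hp.pos hq.pos
  rw [← h6] at h5
  exact mul_left_cancel₀ (one_sub_X_pow_ne hp.pos)
    (mul_left_cancel₀ (one_sub_X_pow_ne hq.pos) h5)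

lemma coeff_cyclotomic_pq (hp : p.Prime) (hq : q.Prime) (hlt : p < q) (j : ℕ) :
    (Polynomial.cyclotomic (p * q) ℤ).coeff j = fa p q j := by
  have h := congrArg (PowerSeries.coeff j) (cyclotomic_eq_serP hp hq hlt)
  rw [Polynomial.coeff_coe] at h
  rw [h]; unfold serP; rw [PowerSeries.coeff_mk]

/-- The expansion of a polynomial, seen as a power series. -/
lemma coe_expand (r : ℕ) (hr : r ≠ 0) (f : Polynomial ℤ) :
    ((Polynomial.expand ℤ r f : Polynomial ℤ) : PowerSeries ℤ)
      = PowerSeries.expand r hr (f : PowerSeries ℤ) := by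
  ext n
  rw [Polynomial.coeff_coe, PowerSeries.coeff_expand, Polynomial.coeff_expand (Nat.pos_of_ne_zero hr),
    Polynomial.coeff_coe]

/-- Coefficients of `F(X^s) G`. -/
lemma coeff_expand_mul_eq (s : ℕ) (hs : s ≠ 0) (F G : PowerSeries ℤ) (k : ℕ) :
    PowerSeries.coeff k (PowerSeries.expand s hs F * G)
      = ∑ i ∈ range (k / s + 1), PowerSeries.coeff i F * PowerSeries.coeff (k - s * i) G := by
  rw [PowerSeries.coeff_mul, Finset.Nat.sum_antidiagonal_eq_sum_range_succ
    (fun a b => PowerSeries.coeff a (PowerSeries.expand s hs F) * PowerSeries.coeff b G)]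
  simp only [PowerSeries.coeff_expand]
  have hpos : 0 < s := Nat.pos_of_ne_zero hs
  symm
  apply Finset.sum_of_injOn (fun i => s * i)
  · intro a _ b _ hab
    exact Nat.eq_of_mul_eq_mul_left hpos hab
  · intro i hi
    simp only [Finset.coe_range, Set.mem_Iio] at hi ⊢
    have h1 : s * i ≤ s * (k / s) := Nat.mul_le_mul_left s (by omega)
    have h2 := Nat.mul_div_le k s
    omega
  · intro b hb hnot
    by_cases hd : s ∣ b
    · exfalso
      apply hnot
      obtain ⟨c, rfl⟩ := hd
      refine ⟨c, ?_, rfl⟩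
      simp only [Finset.mem_coe, Finset.mem_range] at hb ⊢
      have : c ≤ k / s := (Nat.le_div_iff_mul_le hpos).2 (by rw [mul_comm]; omega)
      omega
    · rw [if_neg hd, zero_mul]
  · intro i _
    rw [if_pos (dvd_mul_right s i), Nat.mul_div_cancel_left _ hpos]

end Pool.Agent.MP4c27ed
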