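import Pool.Agent.Lib_MP_4c27ed_nt.Series

/-!
# The partial sums `W(κ, ρ) = ∑_{j ≤ ρ} a(j) χ(κ - j)`
-/

set_option autoImplicit false

namespace Pool.Agent.MP4c27ed

open Finset

variable {p q : ℕ}

/-- The partial sum `∑_{j ≤ ρ} a(j) χ(κ - j)`. -/
noncomputable def fW (p q : ℕ) (κ : ℤ) (ρ : ℕ) : ℤ :=
  ∑ j ∈ range (ρ + 1), fa p q j * chi p q (κ - j)

lemma fW_congr {κ κ' : ℤ} (h : κ ≡ κ' [ZMOD ((p : ℤ) * q)]) (ρ : ℕ) :
    fW p q κ ρ = fW p q κ' ρ := by
  unfold fW
  apply Finset.sum_congr rfl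
  intro j _
  rw [chi_congr (h.sub_right (j : ℤ))]

/-- The closed form of `W(κ, ρ)` through the semigroup indicator. -/
noncomputable def fR (p q : ℕ) (κ : ℤ) (ρ : ℤ) : ℤ :=
  (if ρ ≤ κ - p then 0 else fA p q (min ρ κ) - fA p q (κ - p)) -
    (if ρ ≤ κ - q - p then 0 else fA p q (min ρ (κ - q)) - fA p q (κ - q - p))

lemma fR_zero (hlt : p < q) {κ : ℤ} (h0 : 0 ≤ κ) (h1 : κ < (p : ℤ) * q) :
    fR p q κ 0 = chi p q κ := by
  have hpq' : (p : ℤ) < q := by exact_mod_cast hlt
  have hp0 : (0 : ℤ) ≤ p := by positivity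
  unfold fR
  rw [chi_of_lt h0 h1]
  by_cases c1 : κ < p
  · rw [if_pos c1, if_neg (c := (0 : ℤ) ≤ κ - p) (by linarith), min_eq_left h0, fA_zero_arg,
      fA_neg (x := κ - p) (by linarith), if_neg (c := (0 : ℤ) ≤ κ - q - p) (by linarith),
      min_eq_right (by linarith), fA_neg (x := κ - q) (by linarith),
      fA_neg (x := κ - q - p) (by linarith)]
    ring
  · rw [if_neg c1, if_pos (c := (0 : ℤ) ≤ κ - p) (by linarith)]
    by_cases c2 : (q : ℤ) ≤ κ ∧ κ < q + p
    · rw [if_pos c2, if_neg (c := (0 : ℤ) ≤ κ - q - p) (by linarith [c2.2]),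
        min_eq_left (by linarith [c2.1]), fA_zero_arg, fA_neg (by linarith [c2.2])]
      ring
    · rw [if_neg c2]
      by_cases c3 : (q : ℤ) ≤ κ
      · have c4 : ¬ κ < q + p := fun h => c2 ⟨c3, h⟩
        rw [if_pos (c := (0 : ℤ) ≤ κ - q - p) (by linarith)]
        ring
      · rw [if_neg (c := (0 : ℤ) ≤ κ - q - p) (by linarith), min_eq_right (by linarith),
          fA_neg (x := κ - q) (by linarith), fA_neg (by linarith)]
        ring

lemma fR_step (hp : 0 < p) (hlt : p < q) {κ : ℤ} (h0 : 0 ≤ κ) (h1 : κ < (p : ℤ) * q) {x : ℤ} (hr0 : 0 ≤ x)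
    (hρ : x + 1 ≤ (p : ℤ) * q - p - q) :
    fR p q κ x + (fA p q (x + 1) - fA p q x) * chi p q (κ - (x + 1)) = fR p q κ (x + 1) := by
  have hpq' : (p : ℤ) < q := by exact_mod_cast hlt
  have hp0 : (0 : ℤ) ≤ p := by positivity
  unfold fR
  by_cases n1 : κ - (x + 1) < 0
  · -- beyond `κ`
    rw [chi_neg_zero hlt n1 (by linarith)]
    rw [if_neg (c := x ≤ κ - p) (by omega), if_neg (c := x ≤ κ - q - p) (by omega),
      if_neg (c := x + 1 ≤ κ - p) (by omega), if_neg (c := x + 1 ≤ κ - q - p) (by omega),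
      min_eq_right (a := x) (b := κ) (by omega), min_eq_right (a := x) (b := κ - q) (by omega),
      min_eq_right (a := x + 1) (b := κ) (by omega),
      min_eq_right (a := x + 1) (b := κ - q) (by omega)]
    ring
  push Not at n1
  rw [chi_of_lt n1 (by linarith)]
  by_cases c1 : κ - (x + 1) < p
  · rw [if_pos c1]
    -- second part is constant
    have hx : κ - q ≤ x := by omega
    rw [if_neg (c := x + 1 ≤ κ - p) (by omega), if_neg (c := x ≤ κ - q - p) (by omega),
      if_neg (c := x + 1 ≤ κ - q - p) (by omega), min_eq_right hx,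
      min_eq_right (a := x + 1) (b := κ - q) (by omega),
      min_eq_left (a := x + 1) (b := κ) (by omega)]
    by_cases c2 : x ≤ κ - p
    · have : x = κ - p := by omega
      rw [if_pos c2, this]
      ring
    · rw [if_neg c2, min_eq_left (a := x) (b := κ) (by omega)]
      ring
  · rw [if_neg c1, if_pos (c := x + 1 ≤ κ - p) (by omega),
      if_pos (c := x ≤ κ - p) (by omega)]
    by_cases c2 : (q : ℤ) ≤ κ - (x + 1) ∧ κ - (x + 1) < q + p
    · rw [if_pos c2, if_neg (c := x + 1 ≤ κ - q - p) (by omega),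
        min_eq_left (a := x + 1) (b := κ - q) (by omega)]
      by_cases c3 : x ≤ κ - q - p
      · have : x = κ - q - p := by omega
        rw [if_pos c3, this]
        ring
      · rw [if_neg c3, min_eq_left (a := x) (b := κ - q) (by omega)]
        ring
    · rw [if_neg c2]
      by_cases c3 : (q : ℤ) ≤ κ - (x + 1)
      · have c4 : ¬ κ - (x + 1) < q + p := fun h => c2 ⟨c3, h⟩
        rw [if_pos (c := x + 1 ≤ κ - q - p) (by omega),
          if_pos (c := x ≤ κ - q - p) (by omega)]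
        ring
      · rw [if_neg (c := x + 1 ≤ κ - q - p) (by omega),
          if_neg (c := x ≤ κ - q - p) (by omega),
          min_eq_right (a := x + 1) (b := κ - q) (by omega),
          min_eq_right (a := x) (b := κ - q) (by omega)]
        ring

lemma fW_eq_fR (hp : 0 < p) (hlt : p < q) {κ : ℤ} (h0 : 0 ≤ κ) (h1 : κ < (p : ℤ) * q) :
    ∀ ρ : ℕ, (ρ : ℤ) ≤ (p : ℤ) * q - p - q → fW p q κ ρ = fR p q κ ρ := by
  intro ρ
  induction ρ with
  | zero =>
    intro _
    unfold fW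
    rw [Finset.sum_range_one]
    simp only [Nat.cast_zero, sub_zero]
    rw [fa_zero_arg, one_mul, fR_zero hlt h0 h1]
  | succ ρ ih =>
    intro hρ
    push_cast at hρ
    have ih' := ih (by linarith)
    have hstep : fW p q κ (ρ + 1) = fW p q κ ρ +
        fa p q ((ρ : ℤ) + 1) * chi p q (κ - ((ρ : ℤ) + 1)) := by
      unfold fW
      rw [Finset.sum_range_succ _ (ρ + 1)]
      push_cast
      rfl
    rw [hstep, ih']
    have e1 : fa p q ((ρ : ℤ) + 1) = fA p q ((ρ : ℤ) + 1) - fA p q ρ := by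
      unfold fa
      rw [add_sub_cancel_right]
    rw [e1, fR_step hp hlt h0 h1 (by positivity) hρ]
    push_cast
    rfl

/-- The full sums vanish. -/
lemma full_sum_zero (hpq : Nat.Coprime p q) (hp : 0 < p) (hlt : p < q)
    (hbig : p + q ≤ p * q) (κ : ℤ) :
    ∑ j ∈ range (p * q - p - q + 1 + 1), fa p q j * chi p q (κ - j) = 0 := by
  have hN : (0 : ℤ) < (p : ℤ) * q := by
    have h1 : (0 : ℤ) < p := by exact_mod_cast hp
    have h2 : (0 : ℤ) < q := by exact_mod_cast (lt_trans hp hlt)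
    positivity
  set N : ℤ := (p : ℤ) * q with hNdef
  -- a large natural number congruent to `κ`
  obtain ⟨u, hu1, hu2⟩ : ∃ u : ℕ, p * q ≤ u ∧ (u : ℤ) ≡ κ [ZMOD N] := by
    refine ⟨(κ % N + N).toNat, ?_, ?_⟩
    · have h1 := Int.emod_nonneg κ hN.ne'
      have : ((p * q : ℕ) : ℤ) ≤ κ % N + N := by push_cast; linarith
      omega
    · have h1 := Int.emod_nonneg κ hN.ne'
      rw [Int.toNat_of_nonneg (by linarith)]
      unfold Int.ModEq
      rw [Int.add_emod_right, Int.emod_emod]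
  have hser := congrArg (PowerSeries.coeff u) (serP_mul_serX hpq hp hlt hbig)
  rw [PowerSeries.coeff_mul, Finset.Nat.sum_antidiagonal_eq_sum_range_succ
    (fun a b => PowerSeries.coeff a (serP p q) * PowerSeries.coeff b (serX p q)),
    PowerSeries.coeff_one] at hser
  have hpos : 0 < p * q := by
    have := lt_trans hp hlt
    positivity
  rw [if_neg (by omega)] at hser
  rw [← hser]
  have hle : p * q - p - q + 1 + 1 ≤ u + 1 := by omega
  rw [← Finset.sum_range_add_sum_Ico _ hle]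
  have hz : ∑ k ∈ Finset.Ico (p * q - p - q + 1 + 1) (u + 1),
      PowerSeries.coeff k (serP p q) * PowerSeries.coeff (u - k) (serX p q) = 0 := by
    apply Finset.sum_eq_zero
    intro j hj
    rw [Finset.mem_Ico] at hj
    unfold serP
    rw [PowerSeries.coeff_mk, fa_large hpq hp, zero_mul]
    have h1 : ((p * q : ℕ) : ℤ) = (p : ℤ) * q := by push_cast; ring
    rw [← h1]
    omega
  rw [hz, add_zero]
  apply Finset.sum_congr rfl
  intro j hj
  rw [Finset.mem_range] at hj
  unfold serP serX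
  rw [PowerSeries.coeff_mk, PowerSeries.coeff_mk, Nat.cast_sub (by omega)]
  congr 1
  apply chi_congr
  exact (hu2.symm).sub_right _

/-- The reflection `W(-κ, ρ) = W(κ, φ - 1 - ρ)`. -/
lemma fW_reflect (hpq : Nat.Coprime p q) (hp : 0 < p) (hlt : p < q)
    (hbig : p + q ≤ p * q) (κ : ℤ) {ρ ρ' : ℕ} (hρ : ρ + ρ' = p * q - p - q) :
    fW p q (-κ) ρ = fW p q κ ρ' := by
  have hfull := full_sum_zero hpq hp hlt hbig κ
  have hN : ((p * q - p - q : ℕ) : ℤ) = (p : ℤ) * q - p - q := by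
    rw [Nat.cast_sub (by omega), Nat.cast_sub (by omega)]; push_cast; ring
  have hsplit : p * q - p - q + 1 + 1 = (ρ' + 1) + (ρ + 1) := by omega
  rw [hsplit, Finset.sum_range_add] at hfull
  have h2 : fW p q (-κ) ρ = - ∑ x ∈ range (ρ + 1),
      fa p q ((ρ' + 1 + x : ℕ) : ℤ) * chi p q (κ - ((ρ' + 1 + x : ℕ) : ℤ)) := by
    unfold fW
    rw [← Finset.sum_range_reflect, ← Finset.sum_neg_distrib]
    apply Finset.sum_congr rfl
    intro x hx
    rw [Finset.mem_range] at hx
    have e0 : ((ρ + 1 - 1 - x : ℕ) : ℤ) = (p : ℤ) * q - p - q + 1 - ((ρ' + 1 + x : ℕ) : ℤ) := by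
      have : (ρ : ℤ) + ρ' = (p : ℤ) * q - p - q := by rw [← hN]; exact_mod_cast hρ
      rw [Nat.cast_sub (by omega)]
      push_cast
      linarith
    rw [e0, fa_symm hpq hp]
    have e1 : chi p q (-κ - ((p : ℤ) * q - p - q + 1 - ((ρ' + 1 + x : ℕ) : ℤ)))
        = - chi p q (κ - ((ρ' + 1 + x : ℕ) : ℤ)) := by
      rw [← chi_symm hp hlt (by exact_mod_cast hbig)]
      apply chi_congr
      have : (p : ℤ) + q - 1 - (κ - ((ρ' + 1 + x : ℕ) : ℤ)) =
        (-κ - ((p : ℤ) * q - p - q + 1 - ((ρ' + 1 + x : ℕ) : ℤ))) + (p : ℤ) * q := by ring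
      rw [this]
      unfold Int.ModEq
      rw [Int.add_emod_right]
    rw [e1]
    ring
  rw [h2]
  unfold fW
  linarith

end Pool.Agent.MP4c27ed
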